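import Mathlib

/-!
Factorization-theoretic definitions for MP_d1ccd0_al (monotone catenary degree).
The reduced monoid of `H` is `Associates H`; a factorization is a multiset of atoms of it.
-/

namespace Pool.Agent.Lib.MP_d1ccd0_al

open Classical

/-- `F` is factorial: `F` is isomorphic to the product of its unit group and a free abelian
monoid. -/
def IsFactorial (F : Type) [CommMonoid F] : Prop :=
  ∃ P : Type, Nonempty (F ≃* Fˣ × Multiplicative (P →₀ ℕ))

/-- `H` is a conductor submonoid of `F`: `a F ⊆ H` for every non-invertible `a` of `H`. -/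
def IsConductor {F : Type} [CommMonoid F] (H : Submonoid F) : Prop :=
  ∀ a : H, ¬ IsUnit a → ∀ f : F, (a : F) * f ∈ H

variable {H : Type} [CommMonoid H]

/-- `Z(a)`: the multisets of atoms of the reduced monoid whose product is the class of `a`. -/
def Fact (a : H) : Set (Multiset (Associates H)) :=
  {z | (∀ u ∈ z, Irreducible u) ∧ z.prod = Associates.mk a}

/-- The distance `d(z, z')`: cancel the greatest common divisor `z ∩ z'` and take the larger
length. -/
noncomputable def dist (z z' : Multiset (Associates H)) : ℕ :=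
  max (Multiset.card (z - z ∩ z')) (Multiset.card (z' - z ∩ z'))

/-- There is a monotone `N`-chain in `Z(a)` from `z` to `z'`. -/
def MonoChain (a : H) (N : ℕ∞) (z z' : Multiset (Associates H)) : Prop :=
  ∃ (r : ℕ) (f : ℕ → Multiset (Associates H)), f 0 = z ∧ f r = z' ∧
    (∀ i ≤ r, f i ∈ Fact a) ∧ (∀ i < r, (dist (f i) (f (i + 1)) : ℕ∞) ≤ N) ∧
    ((∀ i < r, Multiset.card (f i) ≤ Multiset.card (f (i + 1))) ∨
      (∀ i < r, Multiset.card (f (i + 1)) ≤ Multiset.card (f i)))

/-- The equal catenary degree of an element. -/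
noncomputable def cEqElt (a : H) : ℕ∞ :=
  sInf {N : ℕ∞ | ∀ z ∈ Fact a, ∀ z' ∈ Fact a,
    Multiset.card z = Multiset.card z' → MonoChain a N z z'}

/-- The set of lengths `L(a)`. -/
def Lengths (a : H) : Set ℕ := Multiset.card '' Fact a

/-- The adjacent catenary degree of an element. -/
noncomputable def cAdjElt (a : H) : ℕ∞ :=
  ⨆ (k ∈ Lengths a) (l ∈ Lengths a) (_ : k < l) (_ : ∀ m ∈ Lengths a, ¬ (k < m ∧ m < l)),
    ⨅ (x ∈ Fact a) (y ∈ Fact a) (_ : Multiset.card x = k) (_ : Multiset.card y = l),
      (dist x y : ℕ∞)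

/-- The equal catenary degree of a monoid. -/
noncomputable def cEq (H : Type) [CommMonoid H] : ℕ∞ := ⨆ a : H, cEqElt a

/-- The adjacent catenary degree of a monoid. -/
noncomputable def cAdj (H : Type) [CommMonoid H] : ℕ∞ := ⨆ a : H, cAdjElt a

/-- The monotone catenary degree of a monoid. -/
noncomputable def cMon (H : Type) [CommMonoid H] : ℕ∞ := max (cEq H) (cAdj H)

end Pool.Agent.Lib.MP_d1ccd0_al
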