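import Mathlib
import Pool.Agent.Lib.MP_d1ccd0_al.Defs

/-!
The conductor submonoid `H = {1} ∪ (z^2, x^2 z, y^2 z, x y)` of the free abelian monoid on
`x, y, z`.  The element `x^n y^n z^(3n+1)` has, for `n ≥ 6`, exactly two factorizations of
length `n + 1`, namely `(x^n z) (y z^3)^n` and `(y^n z) (x z^3)^n`, and these are coprime.
-/

namespace Pool.Agent.Lib.MP_d1ccd0_al

open Classical

abbrev F3 : Type := Multiplicative (ℕ × ℕ × ℕ)

def cx (a : F3) : ℕ := (Multiplicative.toAdd a).1
def cy (a : F3) : ℕ := (Multiplicative.toAdd a).2.1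
def cz (a : F3) : ℕ := (Multiplicative.toAdd a).2.2
def mk3 (x y z : ℕ) : F3 := Multiplicative.ofAdd (x, y, z)

@[simp] lemma cx_mul (a b : F3) : cx (a * b) = cx a + cx b := rfl
@[simp] lemma cy_mul (a b : F3) : cy (a * b) = cy a + cy b := rfl
@[simp] lemma cz_mul (a b : F3) : cz (a * b) = cz a + cz b := rfl
@[simp] lemma cx_one : cx 1 = 0 := rfl
@[simp] lemma cy_one : cy 1 = 0 := rfl
@[simp] lemma cz_one : cz 1 = 0 := rfl
@[simp] lemma cx_mk3 (x y z : ℕ) : cx (mk3 x y z) = x := rfl
@[simp] lemma cy_mk3 (x y z : ℕ) : cy (mk3 x y z) = y := rfl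
@[simp] lemma cz_mk3 (x y z : ℕ) : cz (mk3 x y z) = z := rfl

lemma ext3 {a b : F3} (h1 : cx a = cx b) (h2 : cy a = cy b) (h3 : cz a = cz b) : a = b := by
  apply Multiplicative.toAdd.injective
  exact Prod.ext h1 (Prod.ext h2 h3)

/-- Membership in the ideal generated by `z^2, x^2 z, y^2 z, x y`. -/
def InI (x y z : ℕ) : Prop :=
  2 ≤ z ∨ (2 ≤ x ∧ 1 ≤ z) ∨ (2 ≤ y ∧ 1 ≤ z) ∨ (1 ≤ x ∧ 1 ≤ y)

def Hex : Submonoid F3 where
  carrier := {a | a = 1 ∨ InI (cx a) (cy a) (cz a)}
  one_mem' := Or.inl rfl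
  mul_mem' := by
    intro a b ha hb
    rcases ha with rfl | ha
    · simpa using hb
    · right
      simp only [InI, cx_mul, cy_mul, cz_mul] at ha ⊢
      omega

lemma mem_Hex {a : F3} : a ∈ Hex ↔ a = 1 ∨ InI (cx a) (cy a) (cz a) := Iff.rfl

lemma eq_one_iff (a : F3) : a = 1 ↔ cx a = 0 ∧ cy a = 0 ∧ cz a = 0 := by
  constructor
  · rintro rfl; simp
  · rintro ⟨h1, h2, h3⟩; exact ext3 h1 h2 h3

lemma isUnit_F3 {a : F3} (h : IsUnit a) : a = 1 := by
  obtain ⟨b, hb⟩ := h.exists_right_inv
  have h1 := congrArg cx hb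
  have h2 := congrArg cy hb
  have h3 := congrArg cz hb
  simp only [cx_mul, cy_mul, cz_mul, cx_one, cy_one, cz_one] at h1 h2 h3
  rw [eq_one_iff]; omega

lemma isUnit_Hex {a : Hex} : IsUnit a ↔ a = 1 := by
  constructor
  · intro h
    have : IsUnit (a : F3) := h.map Hex.subtype
    exact Subtype.ext (isUnit_F3 this)
  · rintro rfl; exact isUnit_one

instance : Subsingleton (Hex)ˣ :=
  ⟨fun a b => Units.ext ((isUnit_Hex.1 a.isUnit).trans (isUnit_Hex.1 b.isUnit).symm)⟩

instance : Subsingleton F3ˣ :=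
  ⟨fun a b => Units.ext ((isUnit_F3 a.isUnit).trans (isUnit_F3 b.isUnit).symm)⟩

lemma inI_of_ne_one {a : Hex} (h : a ≠ 1) : InI (cx a) (cy a) (cz a) := by
  rcases a.2 with h1 | h1
  · exact absurd (Subtype.ext h1) h
  · exact h1

lemma conductor : IsConductor Hex := by
  intro a ha f
  have h := inI_of_ne_one (fun h => ha (isUnit_Hex.2 h))
  right
  simp only [InI, cx_mul, cy_mul, cz_mul] at h ⊢
  omega

/-- An element of `H` given by coordinates. -/
def el (x y z : ℕ) (h : InI x y z) : Hex := ⟨mk3 x y z, Or.inr h⟩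

@[simp] lemma coe_el (x y z : ℕ) (h : InI x y z) : ((el x y z h : Hex) : F3) = mk3 x y z := rfl

lemma el_not_unit (x y z : ℕ) (h : InI x y z) : ¬ IsUnit (el x y z h) := by
  rw [isUnit_Hex]
  intro h1
  have h2 : mk3 x y z = 1 := congrArg Subtype.val h1
  rw [eq_one_iff] at h2
  simp only [cx_mk3, cy_mk3, cz_mk3, InI] at h2 h
  omega

lemma not_irr {u : Hex} (hu : Irreducible u) (p q r : ℕ) (h1 : InI p q r)
    (hp : p ≤ cx u) (hq : q ≤ cy u) (hr : r ≤ cz u)
    (h2 : InI (cx u - p) (cy u - q) (cz u - r)) : False := by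
  have : u = el p q r h1 * el _ _ _ h2 := by
    apply Subtype.ext
    apply ext3 <;> simp <;> omega
  rcases hu.isUnit_or_isUnit this with h | h
  · exact el_not_unit _ _ _ _ h
  · exact el_not_unit _ _ _ _ h

lemma atom_bounds {u : Hex} (hu : Irreducible u) :
    cz u ≤ 3 ∧ (cz u = 3 → cx u + cy u ≤ 1) ∧ (cz u = 2 → cx u + cy u ≤ 3) ∧
      (cz u = 1 → cx u + cy u ≤ 3 ∨ cx u = 0 ∨ cy u = 0) := by
  have a1 := not_irr hu 0 0 2 (by simp [InI])
  have a2 := not_irr hu 2 0 1 (by simp [InI])
  have a3 := not_irr hu 0 2 1 (by simp [InI])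
  have a4 := not_irr hu 1 1 0 (by simp [InI])
  simp only [InI] at a1 a2 a3 a4
  refine ⟨?_, ?_, ?_, ?_⟩
  · by_contra h
    exact a1 (by omega) (by omega) (by omega) (by omega)
  · intro h
    by_contra h'
    by_cases hx : 2 ≤ cx u
    · exact a2 (by omega) (by omega) (by omega) (by omega)
    by_cases hy : 2 ≤ cy u
    · exact a3 (by omega) (by omega) (by omega) (by omega)
    exact a4 (by omega) (by omega) (by omega) (by omega)
  · intro h
    by_contra h'
    by_cases hx : cx u = 0
    · exact a3 (by omega) (by omega) (by omega) (by omega)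
    by_cases hy : cy u = 0
    · exact a2 (by omega) (by omega) (by omega) (by omega)
    exact a4 (by omega) (by omega) (by omega) (by omega)
  · intro h
    by_contra h'
    exact a4 (by omega) (by omega) (by omega) (by omega)

lemma irr_of {x y z : ℕ} (h : InI x y z)
    (hh : ∀ p q r p' q' r', InI p q r → InI p' q' r' → p + p' = x → q + q' = y → r + r' = z →
      False) : Irreducible (el x y z h) := by
  refine ⟨el_not_unit _ _ _ _, ?_⟩
  intro a b hab
  by_contra hc
  push Not at hc
  have ha := inI_of_ne_one (fun h => hc.1 (isUnit_Hex.2 h))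
  have hb := inI_of_ne_one (fun h => hc.2 (isUnit_Hex.2 h))
  have e : mk3 x y z = (a : F3) * (b : F3) := congrArg Subtype.val hab
  have e1 := congrArg cx e
  have e2 := congrArg cy e
  have e3 := congrArg cz e
  simp only [cx_mul, cy_mul, cz_mul, cx_mk3, cy_mk3, cz_mk3] at e1 e2 e3
  exact hh _ _ _ _ _ _ ha hb e1.symm e2.symm e3.symm

def aX (n : ℕ) : Hex := el (n + 6) 0 1 (by simp only [InI]; omega)
def aY (n : ℕ) : Hex := el 0 (n + 6) 1 (by simp only [InI]; omega)
def bX : Hex := el 1 0 3 (by simp [InI])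
def bY : Hex := el 0 1 3 (by simp [InI])
def tgt (n : ℕ) : Hex := el (n + 6) (n + 6) (3 * n + 19) (by simp only [InI]; omega)

lemma irr_aX (n : ℕ) : Irreducible (aX n) := irr_of _ (by simp only [InI]; omega)
lemma irr_aY (n : ℕ) : Irreducible (aY n) := irr_of _ (by simp only [InI]; omega)
lemma irr_bX : Irreducible bX := irr_of _ (by simp only [InI]; omega)
lemma irr_bY : Irreducible bY := irr_of _ (by simp only [InI]; omega)

def w1 (n : ℕ) : Multiset Hex := aX n ::ₘ Multiset.replicate (n + 6) bY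
def w2 (n : ℕ) : Multiset Hex := aY n ::ₘ Multiset.replicate (n + 6) bX

lemma cx_prod (w : Multiset Hex) : cx (w.prod : Hex) = (w.map fun u : Hex => cx u).sum := by
  induction w using Multiset.induction_on with
  | empty => rfl
  | cons a s ih =>
    rw [Multiset.prod_cons, Multiset.map_cons, Multiset.sum_cons, Submonoid.coe_mul, cx_mul, ih]

lemma cy_prod (w : Multiset Hex) : cy (w.prod : Hex) = (w.map fun u : Hex => cy u).sum := by
  induction w using Multiset.induction_on with
  | empty => rfl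
  | cons a s ih =>
    rw [Multiset.prod_cons, Multiset.map_cons, Multiset.sum_cons, Submonoid.coe_mul, cy_mul, ih]

lemma cz_prod (w : Multiset Hex) : cz (w.prod : Hex) = (w.map fun u : Hex => cz u).sum := by
  induction w using Multiset.induction_on with
  | empty => rfl
  | cons a s ih =>
    rw [Multiset.prod_cons, Multiset.map_cons, Multiset.sum_cons, Submonoid.coe_mul, cz_mul, ih]

lemma w1_prod (n : ℕ) : (w1 n).prod = tgt n := by
  apply Subtype.ext
  apply ext3
  · rw [cx_prod]; simp [w1, aX, bY, tgt]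
  · rw [cy_prod]; simp [w1, aX, bY, tgt]; omega
  · rw [cz_prod]; simp [w1, aX, bY, tgt]; omega

lemma w2_prod (n : ℕ) : (w2 n).prod = tgt n := by
  apply Subtype.ext
  apply ext3
  · rw [cx_prod]; simp [w2, aY, bX, tgt]; omega
  · rw [cy_prod]; simp [w2, aY, bX, tgt]
  · rw [cz_prod]; simp [w2, aY, bX, tgt]; omega

lemma sum_le {α : Type} (g : α → ℕ) (c : ℕ) (w : Multiset α) (h : ∀ u ∈ w, g u ≤ c) :
    (w.map g).sum ≤ c * Multiset.card w := by
  induction w using Multiset.induction_on with
  | empty => simp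
  | cons a s ih =>
    have h1 := h a (Multiset.mem_cons_self a s)
    have h2 := ih (fun u hu => h u (Multiset.mem_cons_of_mem hu))
    simp only [Multiset.map_cons, Multiset.sum_cons, Multiset.card_cons]
    nlinarith

lemma eq_of_sum_ge {α : Type} (g : α → ℕ) (c : ℕ) (w : Multiset α) (h : ∀ u ∈ w, g u ≤ c)
    (hs : c * Multiset.card w ≤ (w.map g).sum) : ∀ u ∈ w, g u = c := by
  intro u hu
  obtain ⟨s, rfl⟩ := Multiset.exists_cons_of_mem hu
  have h1 := h u (Multiset.mem_cons_self u s)
  have h2 := sum_le g c s (fun u hu => h u (Multiset.mem_cons_of_mem hu))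
  simp only [Multiset.map_cons, Multiset.sum_cons, Multiset.card_cons] at hs
  nlinarith

lemma two_facts (n : ℕ) (w : Multiset Hex) (hw : ∀ u ∈ w, Irreducible u)
    (hp : w.prod = tgt n) (hc : Multiset.card w = n + 7) : w = w1 n ∨ w = w2 n := by
  have ex : (w.map fun u : Hex => cx u).sum = n + 6 := by rw [← cx_prod, hp]; rfl
  have ey : (w.map fun u : Hex => cy u).sum = n + 6 := by rw [← cy_prod, hp]; rfl
  have ez : (w.map fun u : Hex => cz u).sum = 3 * n + 19 := by rw [← cz_prod, hp]; rfl
  by_cases hA : ∃ u ∈ w, cz (u : Hex) ≤ 1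
  · obtain ⟨u, hu, hu1⟩ := hA
    obtain ⟨s, rfl⟩ := Multiset.exists_cons_of_mem hu
    have hs : ∀ v ∈ s, Irreducible v := fun v hv => hw v (Multiset.mem_cons_of_mem hv)
    simp only [Multiset.map_cons, Multiset.sum_cons, Multiset.card_cons] at ex ey ez hc
    have hcs : Multiset.card s = n + 6 := by omega
    have z3 : ∀ v ∈ s, cz (v : Hex) ≤ 3 := fun v hv => (atom_bounds (hs v hv)).1
    have zle := sum_le (fun u : Hex => cz u) 3 s z3
    have zeq := eq_of_sum_ge (fun u : Hex => cz u) 3 s z3 (by omega)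
    have uz : cz (u : Hex) = 1 := by omega
    have xy1 : ∀ v ∈ s, cx (v : Hex) + cy (v : Hex) ≤ 1 :=
      fun v hv => (atom_bounds (hs v hv)).2.1 (zeq v hv)
    have xyle := sum_le (fun u : Hex => cx u + cy u) 1 s xy1
    rw [Multiset.sum_map_add] at xyle
    have hu' := (atom_bounds (hw u (Multiset.mem_cons_self u s))).2.2.2 uz
    rcases hu' with h | h | h
    · omega
    · right
      have uy : cy (u : Hex) = n + 6 := by omega
      have x1 : ∀ v ∈ s, cx (v : Hex) ≤ 1 := fun v hv => by have := xy1 v hv; omega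
      have xeq := eq_of_sum_ge (fun u : Hex => cx u) 1 s x1 (by omega)
      have e1 : u = aY n := Subtype.ext (ext3 h uy uz)
      have e2 : s = Multiset.replicate (n + 6) bX := by
        rw [Multiset.eq_replicate]
        refine ⟨hcs, fun v hv => Subtype.ext (ext3 (xeq v hv) ?_ (zeq v hv))⟩
        have := xy1 v hv
        have := xeq v hv
        change cy (v : Hex) = 0
        omega
      rw [e1, e2]; rfl
    · left
      have ux : cx (u : Hex) = n + 6 := by omega
      have y1 : ∀ v ∈ s, cy (v : Hex) ≤ 1 := fun v hv => by have := xy1 v hv; omega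
      have yeq := eq_of_sum_ge (fun u : Hex => cy u) 1 s y1 (by omega)
      have e1 : u = aX n := Subtype.ext (ext3 ux h uz)
      have e2 : s = Multiset.replicate (n + 6) bY := by
        rw [Multiset.eq_replicate]
        refine ⟨hcs, fun v hv => Subtype.ext (ext3 ?_ (yeq v hv) (zeq v hv))⟩
        have := xy1 v hv
        have := yeq v hv
        change cx (v : Hex) = 0
        omega
      rw [e1, e2]; rfl
  · exfalso
    push Not at hA
    have hb : ∀ v ∈ w, cx (v : Hex) + cy (v : Hex) + 2 * cz (v : Hex) ≤ 7 := by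
      intro v hv
      have h1 := atom_bounds (hw v hv)
      have h2 := hA v hv
      omega
    have := sum_le (fun u : Hex => cx u + cy u + 2 * cz u) 7 w hb
    rw [Multiset.sum_map_add, Multiset.sum_map_add, Multiset.sum_map_mul_left] at this
    omega

noncomputable def z1 (n : ℕ) : Multiset (Associates Hex) := (w1 n).map Associates.mk
noncomputable def z2 (n : ℕ) : Multiset (Associates Hex) := (w2 n).map Associates.mk

lemma card_z1 (n : ℕ) : Multiset.card (z1 n) = n + 7 := by simp [z1, w1]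
lemma card_z2 (n : ℕ) : Multiset.card (z2 n) = n + 7 := by simp [z2, w2]

lemma irr_mk {u : Hex} : Irreducible (Associates.mk u) ↔ Irreducible u :=
  MulEquiv.irreducible_iff (MulEquiv.ofBijective (Associates.mkMonoidHom (M := Hex))
    ⟨Associates.mk_injective, Associates.mk_surjective⟩)

lemma map_mem_Fact {a : Hex} {w : Multiset Hex} (hw : ∀ u ∈ w, Irreducible u)
    (hp : w.prod = a) : w.map Associates.mk ∈ Fact a := by
  refine ⟨?_, by rw [Associates.prod_mk, hp]⟩
  intro u hu
  obtain ⟨v, hv, rfl⟩ := Multiset.mem_map.1 hu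
  exact irr_mk.2 (hw v hv)

lemma z1_mem (n : ℕ) : z1 n ∈ Fact (tgt n) := by
  apply map_mem_Fact _ (w1_prod n)
  intro u hu
  rcases Multiset.mem_cons.1 hu with rfl | hu
  · exact irr_aX n
  · rw [Multiset.eq_of_mem_replicate hu]; exact irr_bY

lemma z2_mem (n : ℕ) : z2 n ∈ Fact (tgt n) := by
  apply map_mem_Fact _ (w2_prod n)
  intro u hu
  rcases Multiset.mem_cons.1 hu with rfl | hu
  · exact irr_aY n
  · rw [Multiset.eq_of_mem_replicate hu]; exact irr_bX

lemma two_facts' (n : ℕ) (z : Multiset (Associates Hex)) (hz : z ∈ Fact (tgt n))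
    (hc : Multiset.card z = n + 7) : z = z1 n ∨ z = z2 n := by
  obtain ⟨w, rfl⟩ := Multiset.map_surjective_of_surjective Associates.mk_surjective z
  have h1 : ∀ u ∈ w, Irreducible u := fun u hu =>
    irr_mk.1 (hz.1 _ (Multiset.mem_map_of_mem _ hu))
  have h2 : w.prod = tgt n := by
    have := hz.2
    rw [Associates.prod_mk] at this
    exact Associates.mk_injective this
  rcases two_facts n w h1 h2 (by simpa using hc) with h | h
  · left; rw [h]; rfl
  · right; rw [h]; rfl

lemma inter_z (n : ℕ) : z1 n ∩ z2 n = 0 := by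
  rw [Multiset.inter_eq_zero_iff_disjoint, Multiset.disjoint_left]
  intro a h1 h2
  obtain ⟨u, hu, rfl⟩ := Multiset.mem_map.1 h1
  obtain ⟨v, hv, huv⟩ := Multiset.mem_map.1 h2
  have e : v = u := Associates.mk_injective huv
  subst e
  have hu' : cy (v : Hex) = 0 ∧ cz (v : Hex) = 1 ∧ cx (v : Hex) = n + 6 ∨
      cy (v : Hex) = 1 ∧ cz (v : Hex) = 3 := by
    rcases Multiset.mem_cons.1 hu with rfl | hu
    · left; exact ⟨rfl, rfl, rfl⟩
    · rw [Multiset.eq_of_mem_replicate hu]; right; exact ⟨rfl, rfl⟩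
  have hv' : cx (v : Hex) = 0 ∧ cz (v : Hex) = 1 ∨ cy (v : Hex) = 0 ∧ cz (v : Hex) = 3 := by
    rcases Multiset.mem_cons.1 hv with rfl | hv
    · left; exact ⟨rfl, rfl⟩
    · rw [Multiset.eq_of_mem_replicate hv]; right; exact ⟨rfl, rfl⟩
  omega

lemma dist_z (n : ℕ) : dist (z1 n) (z2 n) = n + 7 := by
  unfold dist
  have := inter_z n
  simp only [this, Multiset.sub_zero, card_z1, card_z2, max_self]

lemma z1_ne_z2 (n : ℕ) : z1 n ≠ z2 n := by
  intro h
  have h1 := inter_z n
  rw [h] at h1
  have h2 : z2 n ≤ z2 n ∩ z2 n := Multiset.le_inter le_rfl le_rfl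
  have h3 := Multiset.card_le_card h2
  rw [h1, card_z2] at h3
  simp at h3

lemma card_const {r c : ℕ} (g : ℕ → ℕ) (h0 : g 0 = c) (hr : g r = c)
    (h : (∀ i < r, g i ≤ g (i + 1)) ∨ (∀ i < r, g (i + 1) ≤ g i)) : ∀ i ≤ r, g i = c := by
  rcases h with h | h
  · have m : ∀ i j, i + j ≤ r → g i ≤ g (i + j) := by
      intro i j
      induction j with
      | zero => intro _; exact le_rfl
      | succ j ih => intro hj; exact (ih (by omega)).trans (h (i + j) (by omega))
    intro i hi
    have a := m 0 i (by omega)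
    have b := m i (r - i) (by omega)
    rw [zero_add] at a
    rw [show i + (r - i) = r by omega] at b
    omega
  · have m : ∀ i j, i + j ≤ r → g (i + j) ≤ g i := by
      intro i j
      induction j with
      | zero => intro _; exact le_rfl
      | succ j ih => intro hj; exact (h (i + j) (by omega)).trans (ih (by omega))
    intro i hi
    have a := m 0 i (by omega)
    have b := m i (r - i) (by omega)
    rw [zero_add] at a
    rw [show i + (r - i) = r by omega] at b
    omega

lemma le_cEqElt (n : ℕ) : ((n + 7 : ℕ) : ℕ∞) ≤ cEqElt (tgt n) := by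
  apply le_sInf
  intro N hN
  obtain ⟨r, f, h0, hr, hF, hd, hm⟩ :=
    hN _ (z1_mem n) _ (z2_mem n) (by rw [card_z1, card_z2])
  have hc := card_const (c := n + 7) (fun i => Multiset.card (f i))
    (by simp only [h0, card_z1]) (by simp only [hr, card_z2]) hm
  by_contra hlt
  have key : ∀ i ≤ r, f i = z1 n := by
    intro i
    induction i with
    | zero => intro _; exact h0
    | succ i ih =>
      intro hi
      rcases two_facts' n _ (hF (i + 1) hi) (hc (i + 1) hi) with h | h
      · exact h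
      · exfalso
        have := hd i (by omega)
        rw [ih (by omega), h, dist_z] at this
        exact hlt this
  exact z1_ne_z2 n ((key r le_rfl).symm.trans hr)

lemma cEq_top : cEq Hex = ⊤ := by
  apply ENat.eq_top_iff_forall_ge.2
  intro m
  have h1 : (m : ℕ∞) ≤ ((m + 7 : ℕ) : ℕ∞) := by exact_mod_cast Nat.le_add_right m 7
  exact h1.trans ((le_cEqElt m).trans (le_iSup (fun a : Hex => cEqElt a) (tgt m)))

lemma cMon_top : cMon Hex = ⊤ := by
  simp [cMon, cEq_top]

/-- Triples of naturals as finitely supported functions on three primes. -/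
noncomputable def tripleEquiv : (ℕ × ℕ × ℕ) ≃+ (Fin 3 →₀ ℕ) :=
  AddEquiv.trans
    { toFun := fun v => ![v.1, v.2.1, v.2.2]
      invFun := fun g => (g 0, g 1, g 2)
      left_inv := fun v => rfl
      right_inv := fun g => by ext i; fin_cases i <;> rfl
      map_add' := fun v w => by ext i; fin_cases i <;> rfl }
    (Finsupp.addEquivFunOnFinite).symm

lemma factorial_F3 : IsFactorial F3 := by
  have : Unique F3ˣ := uniqueOfSubsingleton 1
  exact ⟨Fin 3, ⟨(AddEquiv.toMultiplicative tripleEquiv).trans MulEquiv.uniqueProd.symm⟩⟩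

lemma fg_F3 : Monoid.FG (Associates F3) := by
  have : AddMonoid.FG (ℕ × ℕ × ℕ) := Module.Finite.iff_addMonoid_fg.1 inferInstance
  exact Monoid.fg_of_surjective Associates.mkMonoidHom Associates.mk_surjective

end Pool.Agent.Lib.MP_d1ccd0_al
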