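import Mathlib

/-!
Chains between multisets of points of `ℕ × ℕ` taken from a box and two strips: first part.
-/

set_option autoImplicit false

namespace Pool.Agent.Lib.MP_d1ccd0_al.RankTwo

open Multiset

/-- Points. -/
abbrev Pt : Type := ℕ × ℕ

/-- States: a multiset of points and an excess. -/
abbrev St : Type := Multiset Pt × Pt

/-- Balanced pairs of states. -/
def Rel (S : Set Pt) (r : St × St) : Prop :=
  (∀ p ∈ r.1.1, p ∈ S) ∧ (∀ p ∈ r.2.1, p ∈ S) ∧ card r.1.1 ≤ card r.2.1 ∧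
    r.1.1.sum + r.1.2 = r.2.1.sum + r.2.2

lemma hilbert {S : Set Pt} (hS : S.Finite) : ∃ G : ℕ, ∀ r, Rel S r →
    ∃ D : Multiset (St × St), D.sum = r ∧ ∀ g ∈ D, Rel S g ∧ card g.2.1 ≤ G := by
  classical
  have : Finite S := hS.to_subtype
  let tm : (S →₀ ℕ) →+ Multiset Pt :=
    (Multiset.mapAddMonoidHom (Subtype.val : S → Pt)).comp Finsupp.toMultiset
  have tmem : ∀ f, ∀ p ∈ tm f, p ∈ S := by
    intro f p hp
    obtain ⟨q, _, rfl⟩ := Multiset.mem_map.mp hp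
    exact q.2
  have tsur : ∀ n : Multiset Pt, (∀ p ∈ n, p ∈ S) → ∃ f, tm f = n := by
    intro n hn
    lift n to Multiset S using hn
    exact ⟨Multiset.toFinsupp n, by simp [tm]⟩
  let Φ : ((S →₀ ℕ) × (S →₀ ℕ) × Pt × Pt × ℕ) →+ St × St :=
    { toFun := fun m => ((tm m.1, m.2.2.1), (tm m.2.1, m.2.2.2.1))
      map_zero' := by simp [Prod.ext_iff]
      map_add' := fun a b => by simp }
  let P : AddSubmonoid ((S →₀ ℕ) × (S →₀ ℕ) × Pt × Pt × ℕ) :=
    { carrier := {m | card (tm m.1) + m.2.2.2.2 = card (tm m.2.1) ∧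
        (tm m.1).sum + m.2.2.1 = (tm m.2.1).sum + m.2.2.2.1}
      zero_mem' := by simp
      add_mem' := by
        rintro a b ⟨h1, h2⟩ ⟨h3, h4⟩
        simp only [Set.mem_ofPred_eq, Prod.fst_add, Prod.snd_add, _root_.map_add, card_add, sum_add,
          Prod.ext_iff] at *
        omega }
  have hP : P.FG := AddSubmonoid.fg_of_subtractive (by
    rintro a ⟨h1, h2⟩ b ⟨h3, h4⟩
    refine ⟨?_, ?_⟩ <;>
    simp only [Prod.fst_add, Prod.snd_add, _root_.map_add, card_add, sum_add, Prod.ext_iff] at * <;>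
    omega)
  obtain ⟨t, ht⟩ := hP
  refine ⟨t.sup fun m => card (tm m.2.1), fun r hr => ?_⟩
  obtain ⟨h1, h2, h3, h4⟩ := hr
  obtain ⟨f1, e1⟩ := tsur _ h1
  obtain ⟨f2, e2⟩ := tsur _ h2
  have hm : (f1, f2, r.1.2, r.2.2, card r.2.1 - card r.1.1) ∈ AddSubmonoid.closure (t : Set _) := by
    rw [ht]
    refine ⟨?_, ?_⟩
    · simp only [e1, e2]; omega
    · simp only [e1, e2]; exact h4
  obtain ⟨l, hl, hs⟩ := AddSubmonoid.exists_multiset_of_mem_closure hm
  refine ⟨l.map Φ, ?_, fun g hg => ?_⟩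
  · rw [← map_multiset_sum, hs]
    simp [Φ, e1, e2]
  · obtain ⟨m, hm, rfl⟩ := Multiset.mem_map.mp hg
    have hmP : m ∈ P := ht ▸ AddSubmonoid.subset_closure (hl m hm)
    obtain ⟨h5, h6⟩ := hmP
    exact ⟨⟨tmem _, tmem _, by change card (tm m.1) ≤ card (tm m.2.1); omega, h6⟩,
      Finset.le_sup (f := fun m => card (tm m.2.1)) (hl m hm)⟩

/-- One step of a chain. -/
def Step (At : Set Pt) (N : ℕ) (x y : Multiset Pt) : Prop :=
  (∀ p ∈ y, p ∈ At) ∧ x.sum = y.sum ∧ card x ≤ card y ∧ card (x - y) ≤ N ∧ card (y - x) ≤ N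

/-- Chains. -/
def Conn (At : Set Pt) (N : ℕ) : Multiset Pt → Multiset Pt → Prop :=
  Relation.ReflTransGen (Step At N)

lemma Conn.mono {At : Set Pt} {N M : ℕ} (h : N ≤ M) {x y : Multiset Pt} (c : Conn At N x y) :
    Conn At M x y := by
  induction c with
  | refl => exact Relation.ReflTransGen.refl
  | tail _ s ih =>
    exact Relation.ReflTransGen.tail ih ⟨s.1, s.2.1, s.2.2.1, s.2.2.2.1.trans h, s.2.2.2.2.trans h⟩

lemma Conn.cons {At : Set Pt} {N : ℕ} {p : Pt} (hp : p ∈ At) {x y : Multiset Pt}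
    (c : Conn At N x y) : Conn At N (p ::ₘ x) (p ::ₘ y) := by
  induction c with
  | refl => exact Relation.ReflTransGen.refl
  | tail _ s ih =>
    obtain ⟨s1, s2, s3, s4, s5⟩ := s
    refine Relation.ReflTransGen.tail ih
      ⟨fun q hq => ?_, by simp [s2], by simpa using s3, ?_, ?_⟩
    · rcases Multiset.mem_cons.mp hq with rfl | hq
      exacts [hp, s1 q hq]
    · rwa [← singleton_add, ← singleton_add, add_tsub_add_eq_tsub_left]
    · rwa [← singleton_add, ← singleton_add, add_tsub_add_eq_tsub_left]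

lemma card_tri {α : Type} [DecidableEq α] (a b c : Multiset α) :
    card (a - c) ≤ card (a - b) + card (b - c) := by
  rw [← card_add]
  exact card_le_card tsub_le_tsub_add_tsub

lemma card_sub_add {α : Type} [DecidableEq α] (c a b : Multiset α) :
    card (c + a - (c + b)) ≤ card a := by
  rw [add_tsub_add_eq_tsub_left]
  exact card_le_card tsub_le_self

/-- The shape of the set of atoms. -/
structure Tame (At : Set Pt) (T : ℕ) : Prop where
  up1 : ∀ p ∈ At, T ≤ p.1 → ∀ x, T ≤ x → (x, p.2) ∈ At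
  up2 : ∀ p ∈ At, T ≤ p.2 → ∀ y, T ≤ y → (p.1, y) ∈ At
  nb : ∀ p ∈ At, p.1 < T ∨ p.2 < T

lemma Tame.mono {At : Set Pt} {T U : ℕ} (h : Tame At T) (hU : T ≤ U) : Tame At U :=
  ⟨fun p hp h1 x hx => h.up1 p hp (hU.trans h1) x (hU.trans hx),
    fun p hp h1 x hx => h.up2 p hp (hU.trans h1) x (hU.trans hx),
    fun p hp => (h.nb p hp).imp (·.trans_le hU) (·.trans_le hU)⟩

/-- The atoms in the box. -/
def box (At : Set Pt) (T : ℕ) : Set Pt := {p | p ∈ At ∧ p.1 ≤ T ∧ p.2 ≤ T}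

lemma box_finite (At : Set Pt) (T : ℕ) : (box At T).Finite :=
  (Set.finite_Iic ((T, T) : Pt)).subset fun _ hp => hp.2

/-- Realisations of a state. -/
def Real (At : Set Pt) (s : St) (w : Multiset Pt) : Prop :=
  (∀ p ∈ w, p ∈ At) ∧ w.sum = s.1.sum + s.2 ∧ card w = card s.1 ∧ card (w - s.1) ≤ 2 ∧
    card (s.1 - w) ≤ 2

lemma bump {At : Set Pt} {w : Multiset Pt} (hw : ∀ p ∈ w, p ∈ At) {e : Pt}
    (he : e = 0 ∨ ∃ p ∈ w, p + e ∈ At) : ∃ w' : Multiset Pt, (∀ p ∈ w', p ∈ At) ∧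
      w'.sum = w.sum + e ∧ card w' = card w ∧ card (w' - w) ≤ 1 ∧ card (w - w') ≤ 1 := by
  classical
  rcases he with rfl | ⟨p, hp, hpe⟩
  · exact ⟨w, hw, by simp, rfl, by simp, by simp⟩
  obtain ⟨u, rfl⟩ := Multiset.exists_cons_of_mem hp
  refine ⟨(p + e) ::ₘ u, fun q hq => ?_, by simp only [sum_cons]; abel, by simp, ?_, ?_⟩
  · rcases Multiset.mem_cons.mp hq with rfl | hq
    exacts [hpe, hw q (mem_cons_of_mem hq)]
  · rw [← singleton_add, ← singleton_add, add_comm _ u, add_comm _ u]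
    exact (card_sub_add _ _ _).trans (by simp)
  · rw [← singleton_add, ← singleton_add, add_comm _ u, add_comm _ u]
    exact (card_sub_add _ _ _).trans (by simp)

lemma exists_real {At : Set Pt} {T : ℕ} (h : Tame At T) {s : St} (h0 : ∀ p ∈ s.1, p ∈ box At T)
    (h1 : (∃ p ∈ s.1, p.1 = T) ∨ s.2.1 = 0) (h2 : (∃ p ∈ s.1, p.2 = T) ∨ s.2.2 = 0) :
    ∃ w, Real At s w := by
  obtain ⟨n, β, α⟩ := s
  simp only at h0 h1 h2
  by_cases hβ : β = 0
  · obtain ⟨w, a1, a2, a3, a4, a5⟩ := bump (fun p hp => (h0 p hp).1) (e := (0, α)) (by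
      rcases h2 with ⟨p, hp, hT⟩ | rfl
      · exact Or.inr ⟨p, hp, h.up2 p (h0 p hp).1 hT.ge _ (by simp [hT])⟩
      · exact Or.inl rfl)
    exact ⟨w, a1, by rw [a2, hβ], a3, a4.trans (by norm_num), a5.trans (by norm_num)⟩
  obtain ⟨p, hp, hT⟩ := h1.resolve_right hβ
  obtain ⟨u, rfl⟩ := Multiset.exists_cons_of_mem hp
  have hpA := (h0 p hp).1
  obtain ⟨w, a1, a2, a3, a4, a5⟩ := bump (At := At) (w := u)
    (fun q hq => (h0 q (mem_cons_of_mem hq)).1) (e := (0, α)) (by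
      rcases h2 with ⟨q, hq, hq2⟩ | rfl
      · rcases Multiset.mem_cons.mp hq with rfl | hq'
        · have := h.nb q hpA
          omega
        · exact Or.inr ⟨q, hq', h.up2 q (h0 q hq).1 hq2.ge _ (by simp [hq2])⟩
      · exact Or.inl rfl)
  have k : ∀ (x y : Pt) (a b : Multiset Pt), card (a - b) ≤ 1 → card (x ::ₘ a - y ::ₘ b) ≤ 2 := by
    intro x y a b hab
    have h3 : x ::ₘ a - y ::ₘ b ≤ {x} + (a - b) := by
      rw [← singleton_add, ← singleton_add]
      exact (tsub_le_tsub_left le_add_self _).trans add_tsub_le_assoc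
    have := card_le_card h3
    simp only [card_add, card_singleton] at this
    omega
  refine ⟨(p.1 + β, p.2) ::ₘ w, fun q hq => ?_, ?_, by simp [a3], k _ _ _ _ a4, k _ _ _ _ a5⟩
  · rcases Multiset.mem_cons.mp hq with rfl | hq
    exacts [h.up1 p hpA hT.ge _ (by omega), a1 q hq]
  · simp only [sum_cons, a2, Prod.ext_iff, Prod.fst_add, Prod.snd_add]
    omega

lemma real_step {At : Set Pt} {s s' : St} {w w' : Multiset Pt} (h : Real At s w) (h' : Real At s' w')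
    (e : s.1.sum + s.2 = s'.1.sum + s'.2) (c : card s.1 ≤ card s'.1) {G : ℕ}
    (d1 : card (s.1 - s'.1) ≤ G) (d2 : card (s'.1 - s.1) ≤ G) : Step At (G + 4) w w' := by
  obtain ⟨-, a2, a3, a4, a5⟩ := h
  obtain ⟨b1, b2, b3, b4, b5⟩ := h'
  refine ⟨b1, by rw [a2, b2, e], by omega, ?_, ?_⟩
  · have := card_tri w s.1 w'
    have := card_tri s.1 s'.1 w'
    omega
  · have := card_tri w' s'.1 w
    have := card_tri s'.1 s.1 w
    omega

end Pool.Agent.Lib.MP_d1ccd0_al.RankTwo
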