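import Mathlib
import Pool.Agent.Lib.MP_d1ccd0_al.RankTwoA

/-!
Chains between multisets of points of `ℕ × ℕ` taken from a box and two strips: second part.
-/

set_option autoImplicit false

namespace Pool.Agent.Lib.MP_d1ccd0_al.RankTwo

open Multiset

variable {At : Set Pt} {T G : ℕ}

lemma rel_add {S : Set Pt} {a b : St × St} (ha : Rel S a) (hb : Rel S b) : Rel S (a + b) := by
  obtain ⟨a1, a2, a3, a4⟩ := ha
  obtain ⟨b1, b2, b3, b4⟩ := hb
  refine ⟨fun p hp => (mem_add.mp hp).elim (a1 p) (b1 p),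
    fun p hp => (mem_add.mp hp).elim (a2 p) (b2 p), ?_, ?_⟩ <;>
  simp only [Prod.fst_add, Prod.snd_add, card_add, sum_add, Prod.ext_iff] at * <;> omega

lemma rel_sum {S : Set Pt} {D : Multiset (St × St)} (h : ∀ g ∈ D, Rel S g ∧ card g.2.1 ≤ G) :
    Rel S D.sum ∧ card D.sum.2.1 ≤ card D * G := by
  induction D using Multiset.induction_on with
  | empty => simp [Rel]
  | cons g D ih =>
    obtain ⟨h1, h2⟩ := ih fun g hg => h g (mem_cons_of_mem hg)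
    obtain ⟨h3, h4⟩ := h g (mem_cons_self _ _)
    rw [sum_cons]
    refine ⟨rel_add h3 h1, ?_⟩
    simp only [Prod.fst_add, Prod.snd_add, card_add, card_cons, add_mul, one_mul]
    omega

lemma step_of {c : St} {g : St × St} (hg : Rel (box At T) g) (hG : card g.2.1 ≤ G)
    {w w' : Multiset Pt} (h : Real At (c + g.1) w) (h' : Real At (c + g.2) w') :
    Step At (G + 4) w w' := by
  obtain ⟨-, -, g3, g4⟩ := hg
  refine real_step h h' ?_ ?_ ((card_sub_add _ _ _).trans (g3.trans hG))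
    ((card_sub_add _ _ _).trans hG) <;>
  simp only [Prod.fst_add, Prod.snd_add, card_add, sum_add, Prod.ext_iff] at * <;> omega

lemma mid (h : Tame At T) (D : Multiset (St × St)) (hD : ∀ g ∈ D, Rel (box At T) g ∧ card g.2.1 ≤ G)
    (c : St) (h0 : ∀ p ∈ c.1, p ∈ box At T)
    (h1 : (∃ p ∈ c.1, p.1 = T) ∨ ((c + D.sum.1).2.1 = 0 ∧ (c + D.sum.2).2.1 = 0))
    (h2 : (∃ p ∈ c.1, p.2 = T) ∨ ((c + D.sum.1).2.2 = 0 ∧ (c + D.sum.2).2.2 = 0))
    (w w' : Multiset Pt) (hw : Real At (c + D.sum.1) w) (hw' : Real At (c + D.sum.2) w') :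
    Conn At (G + 4) w w' := by
  induction D using Multiset.induction_on generalizing c w with
  | empty =>
    exact Relation.ReflTransGen.single (step_of (T := T) (g := 0) (by simp [Rel]) (by simp) hw hw')
  | cons g D ih =>
    have hD' : ∀ g ∈ D, Rel (box At T) g ∧ card g.2.1 ≤ G := fun g hg => hD g (mem_cons_of_mem hg)
    obtain ⟨h3, h4⟩ := hD g (mem_cons_self _ _)
    have h5 : ∀ p ∈ (c + g.2).1, p ∈ box At T := fun p hp => (mem_add.mp hp).elim (h0 p) (h3.2.1 p)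
    have h6 : (∃ p ∈ (c + g.2).1, p.1 = T) ∨
        ((c + g.2 + D.sum.1).2.1 = 0 ∧ (c + g.2 + D.sum.2).2.1 = 0) := by
      refine h1.imp (fun ⟨p, hp, e⟩ => ⟨p, mem_add.mpr (Or.inl hp), e⟩) fun e => ?_
      simp only [sum_cons, Prod.fst_add, Prod.snd_add] at e ⊢
      omega
    have h7 : (∃ p ∈ (c + g.2).1, p.2 = T) ∨
        ((c + g.2 + D.sum.1).2.2 = 0 ∧ (c + g.2 + D.sum.2).2.2 = 0) := by
      refine h2.imp (fun ⟨p, hp, e⟩ => ⟨p, mem_add.mpr (Or.inl hp), e⟩) fun e => ?_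
      simp only [sum_cons, Prod.fst_add, Prod.snd_add] at e ⊢
      omega
    obtain ⟨w1, hw1⟩ := exists_real h (s := c + g.2 + D.sum.1)
      (fun p hp => (mem_add.mp hp).elim (h5 p) ((rel_sum hD').1.1 p))
      (h6.imp (fun ⟨p, hp, e⟩ => ⟨p, mem_add.mpr (Or.inl hp), e⟩) And.left)
      (h7.imp (fun ⟨p, hp, e⟩ => ⟨p, mem_add.mpr (Or.inl hp), e⟩) And.left)
    refine Relation.ReflTransGen.head (step_of (c := c + D.sum.1) h3 h4 ?_ ?_)
      (ih hD' (c + g.2) h5 h6 h7 w1 hw1 ?_)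
    · rwa [sum_cons, Prod.fst_add, add_comm g.1, ← add_assoc] at hw
    · rwa [add_right_comm]
    · rwa [sum_cons, Prod.snd_add, ← add_assoc] at hw'

lemma mem_sum_iff (π : St × St →+ St) (D : Multiset (St × St)) (p : Pt) :
    p ∈ (π D.sum).1 ↔ ∃ g ∈ D, p ∈ (π g).1 := by
  induction D using Multiset.induction_on with
  | empty => simp
  | cons g D ih => simp [ih]

lemma pick (π : St × St →+ St) (D : Multiset (St × St)) (P Q : Pt → Prop) (A B : Prop)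
    (h1 : (∃ p ∈ (π D.sum).1, P p) ∨ A) (h2 : (∃ p ∈ (π D.sum).1, Q p) ∨ B) :
    ∃ D1 D2 : Multiset (St × St), D = D1 + D2 ∧ card D1 ≤ 2 ∧
      ((∃ p ∈ (π D1.sum).1, P p) ∨ A) ∧ ((∃ p ∈ (π D1.sum).1, Q p) ∨ B) := by
  classical
  have k : ∀ (P : Pt → Prop) (A : Prop), ((∃ p ∈ (π D.sum).1, P p) ∨ A) →
      ∃ g : St × St, (g ∈ D ∧ ∃ p ∈ (π g).1, P p) ∨ A := by
    rintro P A (⟨p, hp, e⟩ | h)
    · obtain ⟨g, hg, hp⟩ := (mem_sum_iff π D p).mp hp
      exact ⟨g, Or.inl ⟨hg, p, hp, e⟩⟩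
    · exact ⟨0, Or.inr h⟩
  obtain ⟨g1, k1⟩ := k P A h1
  obtain ⟨g2, k2⟩ := k Q B h2
  refine ⟨D ∩ {g1, g2}, D - D ∩ {g1, g2}, (add_tsub_cancel_of_le inter_le_left).symm,
    (card_le_card inter_le_right).trans (by simp), ?_, ?_⟩
  · exact k1.imp_left fun ⟨hg, p, hp, e⟩ =>
      ⟨p, (mem_sum_iff π _ p).mpr ⟨g1, mem_inter.mpr ⟨hg, by simp⟩, hp⟩, e⟩
  · exact k2.imp_left fun ⟨hg, p, hp, e⟩ =>
      ⟨p, (mem_sum_iff π _ p).mpr ⟨g2, mem_inter.mpr ⟨hg, by simp⟩, hp⟩, e⟩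

lemma forward (h : Tame At T) (D : Multiset (St × St))
    (hD : ∀ g ∈ D, Rel (box At T) g ∧ card g.2.1 ≤ G)
    (h1 : (∃ p ∈ D.sum.2.1, p.1 = T) ∨ (D.sum.1.2.1 = 0 ∧ D.sum.2.2.1 = 0))
    (h2 : (∃ p ∈ D.sum.2.1, p.2 = T) ∨ (D.sum.1.2.2 = 0 ∧ D.sum.2.2.2 = 0))
    (w w' : Multiset Pt) (hw : Real At D.sum.1 w) (hw' : Real At D.sum.2 w') :
    Conn At (2 * G + 4) w w' := by
  obtain ⟨D1, D2, rfl, hc, k1, k2⟩ := pick (AddMonoidHom.snd _ _) D _ _ _ _ h1 h2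
  obtain ⟨r1, r2⟩ := rel_sum fun g hg => hD g (mem_add.mpr (Or.inl hg))
  have hD2 := fun g hg => hD g (mem_add.mpr (Or.inr hg))
  have k3 : (∃ p ∈ D1.sum.2.1, p.1 = T) ∨
      ((D1.sum.2 + D2.sum.1).2.1 = 0 ∧ (D1.sum.2 + D2.sum.2).2.1 = 0) := by
    refine k1.imp_right fun e => ?_
    simp only [sum_add, Prod.fst_add, Prod.snd_add] at e ⊢
    omega
  have k4 : (∃ p ∈ D1.sum.2.1, p.2 = T) ∨
      ((D1.sum.2 + D2.sum.1).2.2 = 0 ∧ (D1.sum.2 + D2.sum.2).2.2 = 0) := by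
    refine k2.imp_right fun e => ?_
    simp only [sum_add, Prod.fst_add, Prod.snd_add] at e ⊢
    omega
  obtain ⟨w1, hw1⟩ := exists_real h (s := D1.sum.2 + D2.sum.1)
    (fun p hp => (mem_add.mp hp).elim (r1.2.1 p) ((rel_sum hD2).1.1 p))
    (k3.imp (fun ⟨p, hp, e⟩ => ⟨p, mem_add.mpr (Or.inl hp), e⟩) And.left)
    (k4.imp (fun ⟨p, hp, e⟩ => ⟨p, mem_add.mpr (Or.inl hp), e⟩) And.left)
  refine Relation.ReflTransGen.head
    (step_of (c := D2.sum.1) r1 (r2.trans (Nat.mul_le_mul_right G hc)) ?_ ?_)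
    ((mid h D2 hD2 D1.sum.2 r1.2.1 k3 k4 w1 w' hw1 ?_).mono (by omega))
  · rwa [sum_add, Prod.fst_add, add_comm] at hw
  · rwa [add_comm]
  · rwa [sum_add, Prod.snd_add] at hw'

lemma backward (h : Tame At T) (D : Multiset (St × St))
    (hD : ∀ g ∈ D, Rel (box At T) g ∧ card g.2.1 ≤ G)
    (h1 : (∃ p ∈ D.sum.1.1, p.1 = T) ∨ (D.sum.1.2.1 = 0 ∧ D.sum.2.2.1 = 0))
    (h2 : (∃ p ∈ D.sum.1.1, p.2 = T) ∨ (D.sum.1.2.2 = 0 ∧ D.sum.2.2.2 = 0))
    (w w' : Multiset Pt) (hw : Real At D.sum.1 w) (hw' : Real At D.sum.2 w') :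
    Conn At (2 * G + 4) w w' := by
  obtain ⟨D1, D2, rfl, hc, k1, k2⟩ := pick (AddMonoidHom.fst _ _) D _ _ _ _ h1 h2
  obtain ⟨r1, r2⟩ := rel_sum fun g hg => hD g (mem_add.mpr (Or.inl hg))
  have hD2 := fun g hg => hD g (mem_add.mpr (Or.inr hg))
  have k3 : (∃ p ∈ D1.sum.1.1, p.1 = T) ∨
      ((D1.sum.1 + D2.sum.1).2.1 = 0 ∧ (D1.sum.1 + D2.sum.2).2.1 = 0) := by
    refine k1.imp_right fun e => ?_
    simp only [sum_add, Prod.fst_add, Prod.snd_add] at e ⊢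
    omega
  have k4 : (∃ p ∈ D1.sum.1.1, p.2 = T) ∨
      ((D1.sum.1 + D2.sum.1).2.2 = 0 ∧ (D1.sum.1 + D2.sum.2).2.2 = 0) := by
    refine k2.imp_right fun e => ?_
    simp only [sum_add, Prod.fst_add, Prod.snd_add] at e ⊢
    omega
  obtain ⟨w1, hw1⟩ := exists_real h (s := D1.sum.1 + D2.sum.2)
    (fun p hp => (mem_add.mp hp).elim (r1.1 p) ((rel_sum hD2).1.2.1 p))
    (k3.imp (fun ⟨p, hp, e⟩ => ⟨p, mem_add.mpr (Or.inl hp), e⟩) And.right)
    (k4.imp (fun ⟨p, hp, e⟩ => ⟨p, mem_add.mpr (Or.inl hp), e⟩) And.right)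
  refine Relation.ReflTransGen.tail
    ((mid h D2 hD2 D1.sum.1 r1.1 k3 k4 w w1 ?_ hw1).mono (by omega))
    (step_of (c := D2.sum.2) r1 (r2.trans (Nat.mul_le_mul_right G hc)) ?_ ?_)
  · rwa [sum_add, Prod.fst_add] at hw
  · rwa [add_comm]
  · rwa [sum_add, Prod.snd_add, add_comm] at hw'

/-- The state of a multiset of points. -/
def st (T : ℕ) (w : Multiset Pt) : St :=
  (w.map fun p => (min p.1 T, min p.2 T), (w.map fun p => (p.1 - T, p.2 - T)).sum)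

lemma st_cons (p : Pt) (w : Multiset Pt) : st T (p ::ₘ w) =
    ((min p.1 T, min p.2 T) ::ₘ (st T w).1, (p.1 - T, p.2 - T) + (st T w).2) := by
  simp [st]

lemma st_sum (w : Multiset Pt) : (st T w).1.sum + (st T w).2 = w.sum := by
  induction w using Multiset.induction_on with
  | empty => simp [st]
  | cons p w ih =>
    simp only [st_cons, sum_cons, Prod.ext_iff, Prod.fst_add, Prod.snd_add] at ih ⊢
    omega

lemma st_zero1 {w : Multiset Pt} (h : ¬ ∃ p ∈ w, T ≤ p.1) : (st T w).2.1 = 0 := by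
  induction w using Multiset.induction_on with
  | empty => simp [st]
  | cons p w ih =>
    have h1 := ih fun ⟨q, hq, e⟩ => h ⟨q, mem_cons_of_mem hq, e⟩
    have h2 : ¬ T ≤ p.1 := fun e => h ⟨p, mem_cons_self _ _, e⟩
    simp only [st_cons, Prod.fst_add]
    omega

lemma st_zero2 {w : Multiset Pt} (h : ¬ ∃ p ∈ w, T ≤ p.2) : (st T w).2.2 = 0 := by
  induction w using Multiset.induction_on with
  | empty => simp [st]
  | cons p w ih =>
    have h1 := ih fun ⟨q, hq, e⟩ => h ⟨q, mem_cons_of_mem hq, e⟩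
    have h2 : ¬ T ≤ p.2 := fun e => h ⟨p, mem_cons_self _ _, e⟩
    simp only [st_cons, Prod.snd_add]
    omega

lemma st_tok1 {w : Multiset Pt} (h : ∃ p ∈ w, T ≤ p.1) : ∃ p ∈ (st T w).1, p.1 = T := by
  obtain ⟨p, hp, e⟩ := h
  exact ⟨_, mem_map_of_mem _ hp, min_eq_right e⟩

lemma st_tok2 {w : Multiset Pt} (h : ∃ p ∈ w, T ≤ p.2) : ∃ p ∈ (st T w).1, p.2 = T := by
  obtain ⟨p, hp, e⟩ := h
  exact ⟨_, mem_map_of_mem _ hp, min_eq_right e⟩

lemma st_box (h : Tame At T) {w : Multiset Pt} (hw : ∀ p ∈ w, p ∈ At) :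
    ∀ p ∈ (st T w).1, p ∈ box At T := by
  intro q hq
  obtain ⟨p, hp, rfl⟩ := mem_map.mp hq
  refine ⟨?_, min_le_right _ _, min_le_right _ _⟩
  have h1 := h.nb p (hw p hp)
  rcases le_total T p.1 with a | a <;> rcases le_total T p.2 with b | b
  · omega
  · rw [min_eq_right a, min_eq_left b]
    exact h.up1 p (hw p hp) a T le_rfl
  · rw [min_eq_left a, min_eq_right b]
    exact h.up2 p (hw p hp) b T le_rfl
  · rw [min_eq_left a, min_eq_left b]
    exact hw p hp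

lemma st_real (h : Tame At T) {w : Multiset Pt} (hw : ∀ p ∈ w, p ∈ At) :
    ∃ v, Real At (st T w) v :=
  exists_real h (st_box h hw) ((em _).imp st_tok1 st_zero1) ((em _).imp st_tok2 st_zero2)

lemma concentrate (h : Tame At T) (w : Multiset Pt) (hw : ∀ p ∈ w, p ∈ At) (v : Multiset Pt)
    (hv : Real At (st T w) v) : Conn At 5 w v ∧ Conn At 5 v w := by
  induction w using Multiset.induction_on generalizing v with
  | empty =>
    have : v = 0 := card_eq_zero.mp (by simpa [st] using hv.2.2.1)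
    subst this
    exact ⟨Relation.ReflTransGen.refl, Relation.ReflTransGen.refl⟩
  | cons p w ih =>
    have hw0 : ∀ q ∈ w, q ∈ At := fun q hq => hw q (mem_cons_of_mem hq)
    have hp := hw p (mem_cons_self _ _)
    obtain ⟨v0, hv0⟩ := st_real h hw0
    obtain ⟨c1, c2⟩ := ih hw0 v0 hv0
    obtain ⟨a1, a2, a3, a4, a5⟩ := hv
    obtain ⟨b1, b2, b3, b4, b5⟩ := hv0
    rw [st_sum] at a2 b2
    rw [st_cons] at a3 a4 a5
    have k : ∀ (x y : Pt) (a b : Multiset Pt), card (a - b) ≤ 2 → card (x ::ₘ a - y ::ₘ b) ≤ 3 := by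
      intro x y a b hab
      have h3 : x ::ₘ a - y ::ₘ b ≤ {x} + (a - b) := by
        rw [← singleton_add, ← singleton_add]
        exact (tsub_le_tsub_left le_add_self _).trans add_tsub_le_assoc
      have := card_le_card h3
      simp only [card_add, card_singleton] at this
      omega
    have d1 : card (p ::ₘ v0 - v) ≤ 5 :=
      (card_tri _ _ _).trans (add_le_add (k _ _ _ _ b4) a5)
    have d2 : card (v - p ::ₘ v0) ≤ 5 :=
      (card_tri _ _ _).trans (add_le_add a4 (k _ _ _ _ b5))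
    have e1 : (p ::ₘ v0).sum = v.sum := by rw [a2, sum_cons, sum_cons, b2]
    have e2 : card (p ::ₘ v0) = card v := by simp [a3, b3]
    refine ⟨Relation.ReflTransGen.tail (c1.cons hp) ⟨a1, e1, e2.le, d1, d2⟩,
      Relation.ReflTransGen.head ⟨fun q hq => ?_, e1.symm, e2.ge, d2, d1⟩ (c2.cons hp)⟩
    rcases mem_cons.mp hq with rfl | hq
    exacts [hp, b1 q hq]

lemma easy (h : Tame At T) : ∃ N, ∀ w w' : Multiset Pt, (∀ p ∈ w, p ∈ At) → (∀ p ∈ w', p ∈ At) →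
    w.sum = w'.sum → card w ≤ card w' → ∀ v, (v = w ∨ v = w') →
    ((∃ p ∈ v, T ≤ p.1) ∨ ((¬ ∃ p ∈ w, T ≤ p.1) ∧ ¬ ∃ p ∈ w', T ≤ p.1)) →
    ((∃ p ∈ v, T ≤ p.2) ∨ ((¬ ∃ p ∈ w, T ≤ p.2) ∧ ¬ ∃ p ∈ w', T ≤ p.2)) → Conn At N w w' := by
  obtain ⟨G, hG⟩ := hilbert (box_finite At T)
  refine ⟨2 * G + 5, fun w w' hw hw' e c v hv h1 h2 => ?_⟩
  obtain ⟨D, hs, hD⟩ := hG (st T w, st T w')
    ⟨st_box h hw, st_box h hw', by simpa [st] using c, by simp only [st_sum, e]⟩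
  obtain ⟨u, hu⟩ := st_real h hw
  obtain ⟨u', hu'⟩ := st_real h hw'
  refine Relation.ReflTransGen.trans ((concentrate h w hw u hu).1.mono (by omega))
    (Relation.ReflTransGen.trans (Conn.mono (N := 2 * G + 4) (by omega) ?_)
      ((concentrate h w' hw' u' hu').2.mono (by omega)))
  rcases hv with rfl | rfl
  · refine backward h D hD ?_ ?_ u u' (by rwa [hs]) (by rwa [hs]) <;> rw [hs]
    · exact h1.imp st_tok1 (And.imp st_zero1 st_zero1)
    · exact h2.imp st_tok2 (And.imp st_zero2 st_zero2)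
  · refine forward h D hD ?_ ?_ u u' (by rwa [hs]) (by rwa [hs]) <;> rw [hs]
    · exact h1.imp st_tok1 (And.imp st_zero1 st_zero1)
    · exact h2.imp st_tok2 (And.imp st_zero2 st_zero2)

end Pool.Agent.Lib.MP_d1ccd0_al.RankTwo
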