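import Mathlib
import Pool.Agent.Lib.MP_d1ccd0_al.RankTwoB

/-!
Chains between multisets of points of `ℕ × ℕ` taken from a box and two strips: conclusion.
-/

set_option autoImplicit false

namespace Pool.Agent.Lib.MP_d1ccd0_al.RankTwo

open Multiset

variable {At : Set Pt} {T : ℕ}

lemma sum_ge {a : ℕ} {u : Multiset Pt} (h : ∀ p ∈ u, a ≤ p.1) : card u * a ≤ u.sum.1 := by
  induction u using Multiset.induction_on with
  | empty => simp
  | cons p u ih =>
    have h1 := ih fun q hq => h q (mem_cons_of_mem hq)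
    have h2 := h p (mem_cons_self _ _)
    simp only [card_cons, sum_cons, Prod.fst_add, add_mul, one_mul]
    omega

lemma exists_sub {a : ℕ} (u : Multiset Pt) (h : ∀ p ∈ u, a ≤ p.1) (m : ℕ)
    (hm : card u * a + m ≤ u.sum.1) :
    ∃ U V, u = U + V ∧ card U ≤ m ∧ card U * a + m ≤ U.sum.1 := by
  induction u using Multiset.induction_on generalizing m with
  | empty => exact ⟨0, 0, by simp, by simp, hm⟩
  | cons p u ih =>
    have h0 := fun q hq => h q (mem_cons_of_mem hq)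
    have h1 := sum_ge h0
    have h2 := h p (mem_cons_self _ _)
    simp only [card_cons, sum_cons, Prod.fst_add, add_mul, one_mul] at hm
    rcases Nat.eq_zero_or_pos m with rfl | hm0
    · exact ⟨0, p ::ₘ u, by simp, by simp, by simp⟩
    obtain ⟨U, V, rfl, h3, h4⟩ := ih h0 (m - (p.1 - a)) (by omega)
    rcases h2.eq_or_lt with h5 | h5
    · exact ⟨U, p ::ₘ V, by simp, by omega, by omega⟩
    · refine ⟨p ::ₘ U, V, by simp, by rw [card_cons]; omega, ?_⟩
      simp only [card_cons, sum_cons, Prod.fst_add, add_mul, one_mul]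
      omega

lemma half (h : Tame At T)
    (hmin : (∃ p ∈ At, T ≤ p.2) → ∃ a, (∀ p ∈ At, a ≤ p.1) ∧ (a, T) ∈ At) :
    ∃ N, ∀ w w' : Multiset Pt, (∀ p ∈ w, p ∈ At) → (∀ p ∈ w', p ∈ At) →
      w.sum = w'.sum → card w ≤ card w' → ((¬ ∃ p ∈ w, T ≤ p.1) ∨ ∃ p ∈ w, T ≤ p.2) →
      Conn At N w w' := by
  obtain ⟨N1, H1⟩ := easy h
  obtain ⟨N2, H2⟩ := easy (h.mono (U := T * T + 2 * T) (by omega))
  refine ⟨N1 + N2 + (T + 1), fun w w' hw hw' e c h0 => ?_⟩
  by_cases hB : ∃ p ∈ w, T ≤ p.1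
  · exact (H1 w w' hw hw' e c w (Or.inl rfl) (Or.inl hB)
      (Or.inl (h0.resolve_left (not_not.mpr hB)))).mono (by omega)
  by_cases hB' : ∃ p ∈ w', T ≤ p.1
  swap
  · by_cases hA : ∃ p ∈ w, T ≤ p.2
    · exact (H1 w w' hw hw' e c w (Or.inl rfl) (Or.inr ⟨hB, hB'⟩) (Or.inl hA)).mono (by omega)
    · exact (H1 w w' hw hw' e c w' (Or.inr rfl) (Or.inr ⟨hB, hB'⟩)
        ((em _).imp_right fun k => ⟨hA, k⟩)).mono (by omega)
  by_cases hA : ∃ p ∈ w, T * T + 2 * T ≤ p.2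
  swap
  · exact (H2 w w' hw hw' e c w' (Or.inr rfl)
      ((em _).imp_right fun k => ⟨fun ⟨p, hp, e⟩ => hB ⟨p, hp, by omega⟩, k⟩)
      ((em _).imp_right fun k => ⟨hA, k⟩)).mono (by omega)
  obtain ⟨p, hp, hpT⟩ := hA
  obtain ⟨q, hq, hqT⟩ := hB'
  obtain ⟨a, ha, haT⟩ := hmin ⟨p, hw p hp, by omega⟩
  have hp1 : p.1 < T := not_le.mp fun k => hB ⟨p, hp, k⟩
  have hq2 : q.2 < T := by have := h.nb q (hw' q hq); omega
  obtain ⟨u, rfl⟩ := exists_cons_of_mem hp
  obtain ⟨u', rfl⟩ := exists_cons_of_mem hq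
  have g1 := sum_ge (u := u') fun r hr => ha r (hw' r (mem_cons_of_mem hr))
  have g2 : card u * a ≤ card u' * a := Nat.mul_le_mul_right a (by simpa using c)
  have g3 := congrArg Prod.fst e
  simp only [sum_cons, Prod.fst_add] at g3
  obtain ⟨U, V, rfl, g4, g5⟩ := exists_sub u (fun r hr => ha r (hw r (mem_cons_of_mem hr)))
    (T - p.1) (by omega)
  obtain ⟨r, hr⟩ : ∃ r, card U = r + 1 := by
    rcases Nat.eq_zero_or_pos (card U) with k | k
    · rw [card_eq_zero.mp k] at g5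
      simp at g5
      omega
    · exact ⟨card U - 1, by omega⟩
  have g6 : r * T ≤ T * T := Nat.mul_le_mul_right T (by omega)
  rw [hr, add_mul, one_mul] at g5
  have hv : ∀ t ∈ V + ((p.1 + U.sum.1 - (r * a + a), q.2) ::ₘ
      (a, p.2 + U.sum.2 - q.2 - r * T) ::ₘ replicate r (a, T)), t ∈ At := by
    intro t ht
    simp only [mem_add, mem_cons, mem_replicate] at ht
    rcases ht with ht | rfl | rfl | ⟨-, rfl⟩
    · exact hw t (by simp [ht])
    · exact h.up1 q (hw' q hq) hqT _ (by omega)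
    · exact h.up2 (a, T) haT le_rfl _ (by omega)
    · exact haT
  have e1 : p ::ₘ (U + V) = V + (p ::ₘ U) := by rw [← cons_add, add_comm]
  have e2 : (V + (p ::ₘ U)).sum = (V + ((p.1 + U.sum.1 - (r * a + a), q.2) ::ₘ
      (a, p.2 + U.sum.2 - q.2 - r * T) ::ₘ replicate r (a, T))).sum := by
    simp only [sum_add, sum_cons, sum_replicate, Prod.ext_iff, Prod.fst_add, Prod.snd_add,
      Prod.smul_mk, smul_eq_mul]
    omega
  have e3 : card (V + (p ::ₘ U)) = card (V + ((p.1 + U.sum.1 - (r * a + a), q.2) ::ₘ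
      (a, p.2 + U.sum.2 - q.2 - r * T) ::ₘ replicate r (a, T))) := by simp [hr, add_assoc]
  rw [e1] at e c ⊢
  refine Relation.ReflTransGen.head ⟨hv, e2, e3.le, (card_sub_add _ _ _).trans ?_,
    (card_sub_add _ _ _).trans ?_⟩ (Conn.mono (by omega) (H1 _ _ hv hw' (e2 ▸ e) (e3 ▸ c) _
      (Or.inl rfl) (Or.inl ⟨_, mem_add.mpr (Or.inr (mem_cons_self _ _)), ?_⟩)
      (Or.inl ⟨_, mem_add.mpr (Or.inr (mem_cons_of_mem (mem_cons_self _ _))), ?_⟩)))
  · rw [card_cons]; omega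
  · simp only [card_cons, card_replicate]; omega
  · simp only; omega
  · simp only; omega

lemma Conn.swap {N : ℕ} {x y : Multiset Pt} (c : Conn (Prod.swap ⁻¹' At) N x y) :
    Conn At N (x.map Prod.swap) (y.map Prod.swap) := by
  have k : ∀ a b : Multiset Pt, card (a.map Prod.swap - b.map Prod.swap) ≤ card (a - b) := by
    intro a b
    rw [← card_map Prod.swap (a - b)]
    refine card_le_card (tsub_le_iff_right.mpr ?_)
    rw [← Multiset.map_add]
    exact map_le_map le_tsub_add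
  induction c with
  | refl => exact Relation.ReflTransGen.refl
  | tail _ s ih =>
    obtain ⟨s1, s2, s3, s4, s5⟩ := s
    refine Relation.ReflTransGen.tail ih ⟨fun q hq => ?_, ?_, by simpa using s3, (k _ _).trans s4,
      (k _ _).trans s5⟩
    · obtain ⟨r, hr, rfl⟩ := mem_map.mp hq
      exact s1 r hr
    · have := congrArg (AddEquiv.prodComm : Pt ≃+ Pt) s2
      rwa [map_multiset_sum, map_multiset_sum] at this

theorem core (h : Tame At T)
    (hmin : (∃ p ∈ At, T ≤ p.2) → ∃ a, (∀ p ∈ At, a ≤ p.1) ∧ (a, T) ∈ At)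
    (hmin' : (∃ p ∈ At, T ≤ p.1) → ∃ b, (∀ p ∈ At, b ≤ p.2) ∧ (T, b) ∈ At) :
    ∃ N, ∀ w w' : Multiset Pt, (∀ p ∈ w, p ∈ At) → (∀ p ∈ w', p ∈ At) →
      w.sum = w'.sum → card w ≤ card w' → Conn At N w w' := by
  obtain ⟨N1, H1⟩ := half h hmin
  obtain ⟨N2, H2⟩ := half (At := Prod.swap ⁻¹' At) (T := T)
    ⟨fun p hp => h.up2 p.swap hp, fun p hp => h.up1 p.swap hp, fun p hp => (h.nb p.swap hp).symm⟩
    (fun ⟨p, hp, e⟩ => by
      obtain ⟨b, h1, h2⟩ := hmin' ⟨p.swap, hp, e⟩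
      exact ⟨b, fun q hq => h1 q.swap hq, h2⟩)
  refine ⟨N1 + N2, fun w w' hw hw' e c => ?_⟩
  by_cases hB : ∃ p ∈ w, T ≤ p.1
  swap
  · exact (H1 w w' hw hw' e c (Or.inl hB)).mono (by omega)
  obtain ⟨p, hp, hT⟩ := hB
  have h1 := (H2 (w.map Prod.swap) (w'.map Prod.swap)
    (fun q hq => by obtain ⟨r, hr, rfl⟩ := mem_map.mp hq; exact hw r hr)
    (fun q hq => by obtain ⟨r, hr, rfl⟩ := mem_map.mp hq; exact hw' r hr)
    (by
      have := congrArg (AddEquiv.prodComm : Pt ≃+ Pt) e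
      rwa [map_multiset_sum, map_multiset_sum] at this)
    (by simpa using c) (Or.inr ⟨p.swap, mem_map_of_mem _ hp, hT⟩)).swap
  simp only [map_map, Function.comp_def, Prod.swap_swap, map_id'] at h1
  exact h1.mono (by omega)

/-- The atoms attached to an ideal. -/
def atoms (I : Set Pt) : Set Pt := {p | p ∈ I ∧ ∀ q ∈ I, ∀ r ∈ I, q + r ≠ p}

theorem core_ideal {I : Set Pt} (hI : ∀ p ∈ I, ∀ q, p ≤ q → q ∈ I) :
    ∃ N, ∀ w w' : Multiset Pt, (∀ p ∈ w, p ∈ atoms I) → (∀ p ∈ w', p ∈ atoms I) →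
      w.sum = w'.sum → card w ≤ card w' → Conn (atoms I) N w w' := by
  rcases I.eq_empty_or_nonempty with rfl | hne
  · exact core (T := 0) ⟨fun _ h => h.1.elim, fun _ h => h.1.elim, fun _ h => h.1.elim⟩
      (fun ⟨_, h, _⟩ => h.1.elim) (fun ⟨_, h, _⟩ => h.1.elim)
  have hm : ∀ f : Pt → ℕ, ∃ g ∈ I, ∀ q ∈ I, f g ≤ f q := fun f =>
    ⟨_, Function.argminOn_mem f I hne, fun q hq => Function.argminOn_le f I hq⟩
  obtain ⟨g, hg, hg'⟩ := hm Prod.fst
  obtain ⟨k, hk, hk'⟩ := hm Prod.snd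
  have key : ∀ l ∈ I, ∀ p ∈ atoms I, p.1 < 2 * l.1 ∨ p.2 < 2 * l.2 := by
    intro l hl p hp
    by_contra hc
    refine hp.2 l hl (p.1 - l.1, p.2 - l.2) (hI l hl _ ⟨?_, ?_⟩) (Prod.ext ?_ ?_) <;>
      simp only [Prod.fst_add, Prod.snd_add] <;> omega
  have a1 : ∀ x y, g.1 ≤ x → x < 2 * g.1 → g.2 ≤ y → (x, y) ∈ atoms I := by
    intro x y h1 h2 h3
    refine ⟨hI g hg _ ⟨h1, h3⟩, fun q hq r hr e => ?_⟩
    have := hg' q hq
    have := hg' r hr
    have := congrArg Prod.fst e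
    simp only [Prod.fst_add] at this
    omega
  have a2 : ∀ x y, k.2 ≤ y → y < 2 * k.2 → k.1 ≤ x → (x, y) ∈ atoms I := by
    intro x y h1 h2 h3
    refine ⟨hI k hk _ ⟨h3, h1⟩, fun q hq r hr e => ?_⟩
    have := hk' q hq
    have := hk' r hr
    have := congrArg Prod.snd e
    simp only [Prod.snd_add] at this
    omega
  refine core (T := 2 * (g.1 + g.2 + k.1 + k.2)) ⟨fun p hp h1 x hx => ?_, fun p hp h1 x hx => ?_,
    fun p hp => ?_⟩ (fun ⟨p, hp, e⟩ => ⟨g.1, fun q hq => hg' q hq.1, ?_⟩)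
    (fun ⟨p, hp, e⟩ => ⟨k.2, fun q hq => hk' q hq.1, ?_⟩)
  · have := key k hk p hp
    exact a2 _ _ (hk' p hp.1) (by omega) (by omega)
  · have := key g hg p hp
    exact a1 _ _ (hg' p hp.1) (by omega) (by omega)
  · have := key g hg p hp
    omega
  · have := key g hg p hp
    exact a1 _ _ le_rfl (by omega) (by omega)
  · have := key k hk p hp
    exact a2 _ _ le_rfl (by omega) (by omega)

end Pool.Agent.Lib.MP_d1ccd0_al.RankTwo
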