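import Mathlib
import Pool.Agent.Lib.MP_d1ccd0_al.Defs
import Pool.Agent.Lib.MP_d1ccd0_al.RankTwoC

/-!
Lifting chains of degrees to chains of factorizations.
-/

set_option autoImplicit false

namespace Pool.Agent.Lib.MP_d1ccd0_al.RankTwo

open Multiset

section Abstract

open Classical

variable {A : Type} [CommMonoid A]

/-- A degree function with the adjusting property. -/
structure Deg (d : A → Pt) : Prop where
  mul : ∀ a b, d (a * b) = d a + d b
  adj : ∀ u s t, ¬ IsUnit u → d t = d u + d s → ∃ u', ¬ IsUnit u' ∧ d u' = d u ∧ u' * s = t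
  cancel : ∀ u a b : A, u * a = u * b → a = b

/-- The degrees of the non-units. -/
def degs (d : A → Pt) : Set Pt := {p | ∃ u, ¬ IsUnit u ∧ d u = p}

variable {d : A → Pt}

lemma Deg.one (h : Deg d) : d 1 = 0 := by
  have := h.mul 1 1
  rw [mul_one] at this
  exact left_eq_add.mp this

lemma Deg.prod (h : Deg d) (z : Multiset A) : d z.prod = (z.map d).sum := by
  induction z using Multiset.induction_on with
  | empty => simpa using h.one
  | cons u z ih => simp [h.mul, ih]

lemma Deg.irr (h : Deg d) (u : A) : Irreducible u ↔ d u ∈ atoms (degs d) := by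
  constructor
  · intro hu
    refine ⟨⟨u, hu.not_isUnit, rfl⟩, ?_⟩
    rintro _ ⟨a, ha, rfl⟩ _ ⟨b, hb, rfl⟩ e
    obtain ⟨a', h1, -, h2⟩ := h.adj a b u ha e.symm
    exact (hu.isUnit_or_isUnit h2.symm).elim h1 hb
  · rintro ⟨⟨u0, h0, e⟩, h1⟩
    refine ⟨fun hu => ?_, fun a b e => ?_⟩
    · obtain ⟨v, hv⟩ := hu.exists_right_inv
      obtain ⟨u', h2, -, h3⟩ := h.adj u0 v 1 h0 (by rw [e, ← h.mul, hv])
      exact h2 (IsUnit.of_mul_eq_one v h3)
    · by_contra hc
      rw [not_or] at hc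
      exact h1 _ ⟨a, hc.1, rfl⟩ _ ⟨b, hc.2, rfl⟩ (by rw [e, h.mul])

/-- One step between factorizations. -/
def StepA (N : ℕ) (x y : Multiset A) : Prop :=
  (∀ u ∈ y, Irreducible u) ∧ x.prod = y.prod ∧ card x ≤ card y ∧ card (x - y) ≤ N ∧
    card (y - x) ≤ N

omit [CommMonoid A] in
lemma exists_split (z : Multiset A) (c g : Multiset Pt) (h : z.map d = c + g) :
    ∃ zc zg, z = zc + zg ∧ zc.map d = c ∧ zg.map d = g := by
  induction c using Multiset.induction_on generalizing z with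
  | empty => exact ⟨0, z, by simp, by simp, by simpa using h⟩
  | cons p c ih =>
    obtain ⟨u, hu, rfl⟩ := mem_map.mp (show p ∈ z.map d by rw [h]; simp)
    obtain ⟨z0, rfl⟩ := exists_cons_of_mem hu
    rw [map_cons, cons_add, cons_inj_right] at h
    obtain ⟨zc, zg, rfl, rfl, rfl⟩ := ih z0 h
    exact ⟨u ::ₘ zc, zg, by simp, by simp, rfl⟩

lemma exists_lift (g : Multiset Pt) (hg : ∀ p ∈ g, p ∈ degs d) : ∃ z : Multiset A, z.map d = g := by
  induction g using Multiset.induction_on with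
  | empty => exact ⟨0, rfl⟩
  | cons p g ih =>
    obtain ⟨z, rfl⟩ := ih fun q hq => hg q (mem_cons_of_mem hq)
    obtain ⟨u, -, rfl⟩ := hg p (mem_cons_self _ _)
    exact ⟨u ::ₘ z, by simp⟩

lemma Deg.lift_step (h : Deg d) {N : ℕ} {z : Multiset A} {w' : Multiset Pt}
    (s : Step (atoms (degs d)) N (z.map d) w') : ∃ z', z'.map d = w' ∧ StepA N z z' := by
  obtain ⟨s1, s2, s3, s4, s5⟩ := s
  have irr : ∀ z' : Multiset A, z'.map d = w' → ∀ u ∈ z', Irreducible u := fun z' e u hu =>
    (h.irr u).mpr (s1 _ (e ▸ mem_map_of_mem _ hu))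
  rcases (w' - z.map d).empty_or_exists_mem with h0 | ⟨p, hp⟩
  · have e : z.map d = w' := (eq_of_le_of_card_le (tsub_eq_zero_iff_le.mp h0) s3).symm
    exact ⟨z, e, irr z e, rfl, le_rfl, by simp, by simp⟩
  obtain ⟨g0, hg0⟩ := exists_cons_of_mem hp
  have hsub : ∀ q ∈ w' - z.map d, q ∈ degs d := fun q hq => (s1 q (mem_of_le tsub_le_self hq)).1
  obtain ⟨z0, rfl⟩ := exists_lift g0 fun q hq => hsub q (hg0 ▸ mem_cons_of_mem hq)
  obtain ⟨u, hu, rfl⟩ := hsub p hp
  have e1 : z.map d = z.map d ∩ w' + (z.map d - w') := by rw [add_comm, sub_add_inter]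
  have e2 : w' = z.map d ∩ w' + (w' - z.map d) := by rw [add_comm, inter_comm, sub_add_inter]
  obtain ⟨zc, zg, e3, e4, e5⟩ := exists_split z _ _ e1
  have e6 : d zg.prod = d u + d z0.prod := by
    rw [e1] at s2
    nth_rw 3 [e2] at s2
    rw [sum_add, sum_add, add_right_inj, hg0, sum_cons] at s2
    rw [h.prod, h.prod, e5, s2]
  obtain ⟨u', -, e7, e8⟩ := h.adj u _ _ hu e6
  have e9 : (zc + u' ::ₘ z0).map d = w' := by
    rw [Multiset.map_add, map_cons, e7, e4, ← hg0, ← e2]
  refine ⟨_, e9, irr _ e9, ?_, ?_, ?_, ?_⟩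
  · rw [prod_add, prod_cons, e8, ← prod_add, ← e3]
  · rwa [← e9, card_map, card_map] at s3
  · rw [e3]
    refine (card_sub_add _ _ _).trans ?_
    rwa [← e5, card_map] at s4
  · rw [e3]
    refine (card_sub_add _ _ _).trans ?_
    rwa [hg0, ← e7, ← map_cons, card_map] at s5

lemma conn_cons {N : ℕ} {u : A} (hu : Irreducible u) {x y : Multiset A}
    (c : Relation.ReflTransGen (StepA N) x y) :
    Relation.ReflTransGen (StepA N) (u ::ₘ x) (u ::ₘ y) := by
  induction c with
  | refl => exact Relation.ReflTransGen.refl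
  | tail _ s ih =>
    obtain ⟨s1, s2, s3, s4, s5⟩ := s
    refine Relation.ReflTransGen.tail ih
      ⟨fun q hq => ?_, by simp [s2], by simpa using s3, ?_, ?_⟩
    · rcases Multiset.mem_cons.mp hq with rfl | hq
      exacts [hu, s1 q hq]
    · rwa [← singleton_add, ← singleton_add, add_tsub_add_eq_tsub_left]
    · rwa [← singleton_add, ← singleton_add, add_tsub_add_eq_tsub_left]

lemma Deg.same (h : Deg d) {N : ℕ} (z' z : Multiset A) (hz' : ∀ u ∈ z', Irreducible u)
    (e : z.map d = z'.map d) (p : z.prod = z'.prod) :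
    Relation.ReflTransGen (StepA (N + 2)) z z' := by
  induction z' using Multiset.induction_on generalizing z with
  | empty =>
    rw [map_zero, map_eq_zero] at e
    rw [e]
  | cons u' z0' ih =>
    have irr : ∀ y : Multiset A, y.map d = (u' ::ₘ z0').map d → ∀ t ∈ y, Irreducible t := by
      intro y ey t ht
      obtain ⟨t', ht', et⟩ := mem_map.mp (ey ▸ mem_map_of_mem d ht)
      exact (h.irr t).mpr (et ▸ (h.irr t').mp (hz' t' ht'))
    obtain ⟨u, hu, eu⟩ := mem_map.mp (show d u' ∈ z.map d by rw [e]; simp)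
    obtain ⟨z0, rfl⟩ := exists_cons_of_mem hu
    have e0 := e
    rw [map_cons, map_cons, eu, cons_inj_right] at e0
    rcases z0.empty_or_exists_mem with rfl | ⟨t, ht⟩
    · have h0 : z0' = 0 := map_eq_zero.mp e0.symm
      subst h0
      have : u = u' := by simpa using p
      rw [this]
    obtain ⟨z1, rfl⟩ := exists_cons_of_mem ht
    obtain ⟨t', -, e1, e2⟩ := h.adj t u' (u * t) (irr _ e t (mem_cons_of_mem ht)).not_isUnit
      (by rw [h.mul, eu, add_comm])
    have e3 : (t' ::ₘ z1).map d = z0'.map d := by rw [← e0, map_cons, map_cons, e1]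
    have e4 : (u ::ₘ t ::ₘ z1).prod = (u' ::ₘ t' ::ₘ z1).prod := by
      simp only [prod_cons]
      rw [← mul_assoc, ← e2, ← mul_assoc, mul_comm t']
    have k : ∀ a b c e : A, card (a ::ₘ b ::ₘ z1 - c ::ₘ e ::ₘ z1) ≤ N + 2 := by
      intro a b c e
      have : ∀ a b : A, a ::ₘ b ::ₘ z1 = z1 + {a, b} := fun a b => by
        rw [add_comm, insert_eq_cons, cons_add, singleton_add]
      rw [this, this]
      exact (card_sub_add _ _ _).trans (by simp)
    refine Relation.ReflTransGen.head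
      ⟨irr _ (by rw [map_cons, e3, map_cons]), e4, by simp, k _ _ _ _, k _ _ _ _⟩
      (conn_cons (hz' u' (mem_cons_self _ _))
        (ih _ (fun v hv => hz' v (mem_cons_of_mem hv)) e3 (h.cancel u' _ _ ?_)))
    rw [← prod_cons, ← e4, p, prod_cons]

lemma Deg.conn (h : Deg d) {N : ℕ} {z z' : Multiset A} (hz' : ∀ u ∈ z', Irreducible u)
    (p : z.prod = z'.prod) (c : Conn (atoms (degs d)) N (z.map d) (z'.map d)) :
    Relation.ReflTransGen (StepA (N + 2)) z z' := by
  have key : ∀ w', Conn (atoms (degs d)) N (z.map d) w' → ∃ y : Multiset A, y.map d = w' ∧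
      z.prod = y.prod ∧ Relation.ReflTransGen (StepA (N + 2)) z y := by
    intro w' c
    induction c with
    | refl => exact ⟨z, rfl, rfl, Relation.ReflTransGen.refl⟩
    | tail _ s ih =>
      obtain ⟨y, rfl, e, cy⟩ := ih
      obtain ⟨y', e1, s1, s2, s3, s4, s5⟩ := h.lift_step s
      exact ⟨y', e1, e.trans s2, cy.tail ⟨s1, s2, s3, by omega, by omega⟩⟩
  obtain ⟨y, e1, e2, cy⟩ := key _ c
  exact cy.trans (h.same z' y hz' e1 (e2.symm.trans p))

end Abstract

section Finish

open Classical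

variable {H : Type} [CommMonoid H]

lemma sub_inst {α : Type} (i j : DecidableEq α) (x y : Multiset α) :
    @HSub.hSub _ _ _ (@instHSub _ (@Multiset.instSub α i)) x y =
      @HSub.hSub _ _ _ (@instHSub _ (@Multiset.instSub α j)) x y := by
  rw [Subsingleton.elim i j]

lemma dist_le {N : ℕ} {x y : Multiset (Associates H)} (s : StepA N x y) :
    (dist x y : ℕ∞) ≤ (N : ℕ∞) := by
  rw [Nat.cast_le, dist, sub_inter, inter_comm, sub_inter]
  exact Nat.max_le.mpr ⟨(congrArg card (sub_inst _ _ x y)).trans_le s.2.2.2.1,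
    (congrArg card (sub_inst _ _ y x)).trans_le s.2.2.2.2⟩

lemma monoChain {N : ℕ} {a : H} {x y : Multiset (Associates H)} (hx : x ∈ Fact a)
    (c : Relation.ReflTransGen (StepA N) x y) :
    ∃ (r : ℕ) (f : ℕ → Multiset (Associates H)), f 0 = x ∧ f r = y ∧
      (∀ i ≤ r, f i ∈ Fact a) ∧ (∀ i < r, (dist (f i) (f (i + 1)) : ℕ∞) ≤ N) ∧
      ∀ i < r, card (f i) ≤ card (f (i + 1)) := by
  induction c with
  | refl => exact ⟨0, fun _ => x, rfl, rfl, fun _ _ => hx, by simp, by simp⟩
  | @tail y y' _ s ih =>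
    obtain ⟨r, f, f0, rfl, f1, f2, f3⟩ := ih
    have k : ∀ (P : Multiset (Associates H) → Multiset (Associates H) → Prop),
        (∀ i < r, P (f i) (f (i + 1))) → P (f r) y' → ∀ i < r + 1,
          P (if i ≤ r then f i else y') (if i + 1 ≤ r then f (i + 1) else y') := by
      intro P h1 h2 i hi
      rw [if_pos (by omega)]
      split_ifs with h3
      · exact h1 i h3
      · rwa [show i = r by omega]
    refine ⟨r + 1, fun i => if i ≤ r then f i else y', by simpa using f0, by simp, fun i _ => ?_,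
      k (fun x y => (dist x y : ℕ∞) ≤ N) f2 (dist_le s), k (fun x y => card x ≤ card y) f3 s.2.2.1⟩
    simp only
    split_ifs with h3
    · exact f1 i h3
    · exact ⟨s.1, s.2.1 ▸ (f1 r le_rfl).2⟩

theorem cMon_le {N : ℕ} (h : ∀ (a : H), ∀ x ∈ Fact a, ∀ y ∈ Fact a, card x ≤ card y →
    Relation.ReflTransGen (StepA N) x y) : cMon H ≤ N := by
  refine max_le (iSup_le fun a => sInf_le fun x hx y hy e => ?_) (iSup_le fun a => ?_)
  · obtain ⟨r, f, f0, f1, f2, f3, f4⟩ := monoChain hx (h a x hx y hy e.le)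
    exact ⟨r, f, f0, f1, f2, f3, Or.inl f4⟩
  refine iSup₂_le fun k hk => iSup₂_le fun l hl => iSup₂_le fun hkl hadj => ?_
  obtain ⟨x, hx, rfl⟩ := hk
  obtain ⟨y, hy, rfl⟩ := hl
  obtain ⟨r, f, f0, f1, f2, f3, f4⟩ := monoChain hx (h a x hx y hy hkl.le)
  have mono : ∀ j i, i + j = r → card (f i) ≤ card y := by
    intro j
    induction j with
    | zero => rintro i rfl; exact (congrArg card f1).le
    | succ j ih => intro i hi; exact (f4 i (by omega)).trans (ih (i + 1) (by omega))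
  by_contra hc
  have all : ∀ i ≤ r, card (f i) = card x := by
    intro i
    induction i with
    | zero => intro _; rw [f0]
    | succ i ih =>
      intro hi
      have h1 := ih (by omega)
      have h2 := f4 i (by omega)
      have h3 := mono (r - (i + 1)) (i + 1) (by omega)
      have h4 := hadj _ ⟨f (i + 1), f2 _ hi, rfl⟩
      by_contra h5
      refine hc (iInf₂_le_of_le (f i) (f2 i (by omega)) (iInf₂_le_of_le (f (i + 1)) (f2 _ hi)
        (iInf₂_le_of_le h1 (by omega) (f3 i (by omega)))))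
  have := all r le_rfl
  rw [f1] at this
  omega

end Finish

theorem finite_of_deg {F : Type} [CancelCommMonoid F] (H : Submonoid F) (hH : IsConductor H)
    (v : F → Pt) (vmul : ∀ f g, v (f * g) = v f + v g) (vass : ∀ f g, v f = v g → Associated f g)
    (hcore : ∀ I : Set Pt, (∀ p ∈ I, ∀ f, p + v f ∈ I) → (∀ p ∈ I, ∃ f, v f = p) →
      ∃ N, ∀ w w' : Multiset Pt, (∀ p ∈ w, p ∈ atoms I) → (∀ p ∈ w', p ∈ atoms I) →
        w.sum = w'.sum → card w ≤ card w' → Conn (atoms I) N w w') : cMon H < ⊤ := by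
  have v1 : v 1 = 0 := by
    have := vmul 1 1
    rw [mul_one] at this
    exact left_eq_add.mp this
  have vu : ∀ f, IsUnit f → v f = 0 := by
    intro f hf
    obtain ⟨g, hg⟩ := hf.exists_right_inv
    have := vmul f g
    rw [hg, v1] at this
    exact (add_eq_zero.mp this.symm).1
  have nu : ∀ (a : H) (ha : ¬ IsUnit a) (f : F), ¬ IsUnit (⟨a * f, hH a ha f⟩ : H) := by
    intro a ha f hu
    obtain ⟨g, hg⟩ := (hu.map H.subtype).exists_right_inv
    have hg' : (a : F) * (f * g) = 1 := by rw [← mul_assoc]; exact hg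
    refine ha (IsUnit.of_mul_eq_one ⟨a * (f * g * (f * g)), hH a ha _⟩ (Subtype.ext ?_))
    change (a : F) * (a * (f * g * (f * g))) = 1
    rw [← mul_assoc (a : F) (f * g), hg', one_mul, hg']
  let d : Associates H → Pt := Quotient.lift (fun a : H => v a) (by
    rintro a b ⟨u, rfl⟩
    rw [Submonoid.coe_mul, vmul, vu ((u : H) : F) (u.isUnit.map H.subtype), add_zero])
  have dmk : ∀ a : H, d (Associates.mk a) = v a := fun a => rfl
  have hd : Deg d := by
    refine ⟨?_, ?_, ?_⟩ <;> simp only [Associates.forall_associated, Associates.mk_mul_mk]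
    · exact fun a b => vmul _ _
    · intro u s t hu e
      rw [Associates.isUnit_mk] at hu
      obtain ⟨ε, hε⟩ := vass (u * s) t (by rw [vmul]; exact e.symm)
      refine ⟨Associates.mk ⟨u * ε, hH u hu ε⟩, by rw [Associates.isUnit_mk]; exact nu u hu ε, ?_, ?_⟩
      · rw [dmk, dmk, vmul, vu _ ε.isUnit, add_zero]
      · rw [Associates.mk_mul_mk]
        congr 1
        exact Subtype.ext (by rw [← hε]; simp [mul_right_comm])
    · intro u a b
      rw [Associates.mk_eq_mk_iff_associated, Associates.mk_eq_mk_iff_associated]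
      rintro ⟨ε, hε⟩
      exact ⟨ε, mul_left_cancel (by rw [← mul_assoc]; exact hε)⟩
  obtain ⟨N, hN⟩ := hcore (degs d) (by
    rintro _ ⟨u, hu, rfl⟩ f
    obtain ⟨a, rfl⟩ := Associates.mk_surjective u
    rw [Associates.isUnit_mk] at hu
    exact ⟨Associates.mk ⟨a * f, hH a hu f⟩, by rw [Associates.isUnit_mk]; exact nu a hu f,
      vmul _ _⟩) (by
    rintro _ ⟨u, -, rfl⟩
    obtain ⟨a, rfl⟩ := Associates.mk_surjective u
    exact ⟨a, rfl⟩)
  refine (cMon_le (N := N + 2) fun a x hx y hy c => hd.conn hy.1 (hx.2.trans hy.2.symm)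
    (hN _ _ ?_ ?_ ?_ (by simpa using c))).trans_lt (ENat.natCast_lt_top _)
  · intro p hp
    obtain ⟨u, hu, rfl⟩ := mem_map.mp hp
    exact (hd.irr u).mp (hx.1 u hu)
  · intro p hp
    obtain ⟨u, hu, rfl⟩ := mem_map.mp hp
    exact (hd.irr u).mp (hy.1 u hu)
  · rw [← hd.prod, ← hd.prod, hx.2, hy.2]

lemma core_line {I : Set Pt} (h0 : ∀ p ∈ I, p.2 = 0)
    (hI : ∀ p ∈ I, ∀ x, p + (x, 0) ∈ I) :
    ∃ N, ∀ w w' : Multiset Pt, (∀ p ∈ w, p ∈ atoms I) → (∀ p ∈ w', p ∈ atoms I) →
      w.sum = w'.sum → card w ≤ card w' → Conn (atoms I) N w w' := by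
  obtain ⟨T, hT⟩ : ∃ T, ∀ p ∈ atoms I, p.1 < T ∧ p.2 < T := by
    rcases I.eq_empty_or_nonempty with rfl | ⟨g, hg⟩
    · exact ⟨0, fun _ h => h.1.elim⟩
    refine ⟨2 * g.1 + 1, fun p hp => ⟨?_, by rw [h0 p hp.1]; omega⟩⟩
    by_contra hc
    refine hp.2 g hg _ (hI g hg (p.1 - 2 * g.1)) ?_
    have h1 := h0 p hp.1
    have h2 := h0 g hg
    simp only [Prod.ext_iff, Prod.fst_add, Prod.snd_add]
    omega
  exact core (T := T) ⟨fun p hp h => absurd (hT p hp).1 (by omega),
    fun p hp h => absurd (hT p hp).2 (by omega), fun p hp => Or.inl (hT p hp).1⟩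
    (fun ⟨p, hp, h⟩ => absurd (hT p hp).2 (by omega))
    (fun ⟨p, hp, h⟩ => absurd (hT p hp).1 (by omega))

theorem finite_of_coords {F : Type} [CancelCommMonoid F] (H : Submonoid F) (hH : IsConductor H)
    {P : Type} (e : F ≃* Fˣ × Multiplicative (P →₀ ℕ)) (φ : (P →₀ ℕ) →+ Pt)
    (hφ : Function.Injective φ)
    (hcore : ∀ I : Set Pt, (∀ p ∈ I, ∀ m, p + φ m ∈ I) → (∀ p ∈ I, ∃ m, φ m = p) →
      ∃ N, ∀ w w' : Multiset Pt, (∀ p ∈ w, p ∈ atoms I) → (∀ p ∈ w', p ∈ atoms I) →
        w.sum = w'.sum → card w ≤ card w' → Conn (atoms I) N w w') : cMon H < ⊤ := by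
  refine finite_of_deg H hH (fun f => φ (e f).2.toAdd) (fun f g => by simp) (fun f g h => ?_)
    fun I h1 h2 => hcore I (fun p hp m => ?_) fun p hp => ?_
  · have h1 : (e f).2 = (e g).2 := Multiplicative.toAdd.injective (hφ h)
    have h2 : IsUnit (e.symm ((e f).1⁻¹ * (e g).1, 1)) :=
      (Prod.isUnit_iff.mpr ⟨Group.isUnit _, isUnit_one⟩).map e.symm
    refine ⟨h2.unit, e.injective ?_⟩
    rw [map_mul, IsUnit.unit_spec, MulEquiv.apply_symm_apply]
    exact Prod.ext (by simp) (by simp [h1])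
  · simpa using h1 p hp (e.symm (1, Multiplicative.ofAdd m))
  · obtain ⟨f, hf⟩ := h2 p hp
    exact ⟨_, hf⟩

theorem finite_of_card {F : Type} [CancelCommMonoid F] (H : Submonoid F) (hH : IsConductor H)
    {P : Type} [Finite P] (hP : Nat.card P ≤ 2) (e : F ≃* Fˣ × Multiplicative (P →₀ ℕ)) :
    cMon H < ⊤ := by
  classical
  rcases isEmpty_or_nonempty P with h0 | ⟨⟨x⟩⟩
  · refine finite_of_coords H hH e 0 (fun a b _ => Subsingleton.elim _ _) fun I _ h2 => ?_
    have k : ∀ p ∈ atoms I, p.1 < 1 ∧ p.2 < 1 := by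
      intro p hp
      obtain ⟨m, rfl⟩ := h2 p hp.1
      simp
    exact core (T := 1) ⟨fun p hp h => absurd (k p hp).1 (by omega),
      fun p hp h => absurd (k p hp).2 (by omega), fun p hp => Or.inl (k p hp).1⟩
      (fun ⟨p, hp, h⟩ => absurd (k p hp).2 (by omega))
      (fun ⟨p, hp, h⟩ => absurd (k p hp).1 (by omega))
  by_cases hy : ∃ y, y ≠ x
  · obtain ⟨y, hy⟩ := hy
    have hall : ∀ z, z = x ∨ z = y := by
      intro z
      by_contra hc
      rw [not_or] at hc
      have := Fintype.ofFinite P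
      have h3 := Finset.card_le_univ ({z, y, x} : Finset P)
      rw [Finset.card_eq_three.mpr ⟨z, y, x, hc.2, hc.1, hy, rfl⟩, ← Nat.card_eq_fintype_card] at h3
      omega
    refine finite_of_coords H hH e ((Finsupp.applyAddHom x).prod (Finsupp.applyAddHom y))
      (fun a b h => Finsupp.ext fun z => ?_) fun I h1 _ => core_ideal fun p hp q hq => ?_
    · rcases hall z with rfl | rfl
      exacts [congrArg Prod.fst h, congrArg Prod.snd h]
    · have h3 := h1 p hp (Finsupp.single x (q.1 - p.1) + Finsupp.single y (q.2 - p.2))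
      have h4 : p + ((Finsupp.applyAddHom x).prod (Finsupp.applyAddHom y))
          (Finsupp.single x (q.1 - p.1) + Finsupp.single y (q.2 - p.2)) = q := by
        have := hq.1
        have := hq.2
        refine Prod.ext ?_ ?_ <;> simp [hy, hy.symm] <;> omega
      rwa [h4] at h3
  · refine finite_of_coords H hH e ((Finsupp.applyAddHom x).prod 0)
      (fun a b h => Finsupp.ext fun z => ?_) fun I h1 h2 => core_line (fun p hp => ?_)
        fun p hp t => ?_
    · have : z = x := by_contra fun hc => hy ⟨z, hc⟩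
      subst this
      exact congrArg Prod.fst h
    · obtain ⟨m, rfl⟩ := h2 p hp
      rfl
    · simpa using h1 p hp (Finsupp.single x t)

end Pool.Agent.Lib.MP_d1ccd0_al.RankTwo
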